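import Pool.Agent.W594.SYZ.TQ4

/-!
# Minkowski's bound: the group of the linear parts of a torus quotient is bounded
-/

set_option autoImplicit false

namespace Q47.EB

open Pool.Agent.W594.SYZ2 Pool.Agent.W594.SYZ2.TQ

section Mat

variable {n : Type*} [Fintype n] [DecidableEq n]

theorem pow_expand (C : Matrix n n ℤ) (k : ℕ) :
    ∃ R : Matrix n n ℤ, (1 + C) ^ k = 1 + (k : ℤ) • C + C * C * R := by
  induction k with
  | zero => exact ⟨0, by simp⟩
  | succ k ih =>
    obtain ⟨R, hR⟩ := ih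
    refine ⟨(k : ℤ) • 1 + R * (1 + C), ?_⟩
    rw [pow_succ, hR]
    push_cast
    simp only [mul_add, add_mul, one_mul, mul_one, smul_mul_assoc, mul_smul_comm, add_smul,
      one_smul, mul_assoc]
    abel

theorem three_dvd (k : ℕ) : 0 < k → ∀ (s : ℕ) (E : Matrix n n ℤ), 1 ≤ s →
    (1 + (3 ^ s : ℤ) • E) ^ k = 1 → ∀ i j, (3 : ℤ) ∣ E i j := by
  induction k using Nat.strong_induction_on with
  | _ k ih =>
    intro hk s E hs h i j
    by_cases h3 : 3 ∣ k
    · obtain ⟨k', rfl⟩ := h3
      have hk' : 0 < k' := by omega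
      obtain ⟨t, rfl⟩ : ∃ t, s = t + 1 := ⟨s - 1, by omega⟩
      have e1 : (1 + (3 ^ (t + 1) : ℤ) • E) ^ 3
          = 1 + (3 ^ (t + 1 + 1) : ℤ) • (E + (3 ^ (t + 1) : ℤ) • (E * E)
            + (3 ^ (2 * t + 1) : ℤ) • (E * E * E)) := by
        have e2 : ∀ C : Matrix n n ℤ, (1 + C) ^ 3 = 1 + (3 : ℤ) • C + (3 : ℤ) • (C * C)
            + C * C * C := by
          intro C
          have : (1 + C) ^ 3 = 1 + (C + C + C) + (C * C + C * C + C * C) + C * C * C := by
            rw [pow_succ, pow_two]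
            simp only [mul_add, add_mul, one_mul, mul_one]
            abel
          rw [this]
          have h3 : ∀ M : Matrix n n ℤ, (3 : ℤ) • M = M + M + M := by
            intro M
            have : (3 : ℤ) = 1 + 1 + 1 := by norm_num
            rw [this, add_smul, add_smul, one_smul]
          rw [h3, h3]
        rw [e2]
        simp only [smul_mul_assoc, mul_smul_comm, smul_smul, smul_add]
        have a1 : (3 : ℤ) * 3 ^ (t + 1) = 3 ^ (t + 1 + 1) := by ring
        have a2 : (3 : ℤ) * (3 ^ (t + 1) * 3 ^ (t + 1)) = 3 ^ (t + 1 + 1) * 3 ^ (t + 1) := by ring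
        have a3 : (3 : ℤ) ^ (t + 1) * (3 ^ (t + 1) * 3 ^ (t + 1))
            = 3 ^ (t + 1 + 1) * 3 ^ (2 * t + 1) := by ring
        rw [a1, a2, a3]
        abel
      rw [pow_mul, e1] at h
      have h2 := ih k' (by omega) hk' (t + 1 + 1) _ (by omega) h i j
      simp only [Matrix.add_apply, Matrix.smul_apply, smul_eq_mul] at h2
      have h4 : (3 : ℤ) ∣ 3 ^ (t + 1) * (E * E) i j := Dvd.dvd.mul_right (dvd_pow_self 3 (by omega)) _
      have h5 : (3 : ℤ) ∣ 3 ^ (2 * t + 1) * (E * E * E) i j :=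
        Dvd.dvd.mul_right (dvd_pow_self 3 (by omega)) _
      have h6 := (Int.dvd_add_left h5).1 h2
      exact (Int.dvd_add_left h4).1 h6
    · obtain ⟨R, hR⟩ := pow_expand ((3 ^ s : ℤ) • E) k
      rw [hR] at h
      have h1 := congrFun (congrFun h i) j
      simp only [Matrix.add_apply, Matrix.smul_apply, smul_eq_mul, smul_mul_assoc,
        mul_smul_comm] at h1
      have h2 : (3 : ℤ) ^ s * ((k : ℤ) * E i j + 3 ^ s * (E * E * R) i j) = 0 := by
        linear_combination h1
      have h3' : (k : ℤ) * E i j + 3 ^ s * (E * E * R) i j = 0 := by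
        rcases mul_eq_zero.1 h2 with h | h
        · exact absurd h (by positivity)
        · exact h
      have h4 : (3 : ℤ) ∣ 3 ^ s * (E * E * R) i j :=
        Dvd.dvd.mul_right (dvd_pow_self 3 (by omega)) _
      have h5 : (3 : ℤ) ∣ (k : ℤ) * E i j := by
        have : (k : ℤ) * E i j = -(3 ^ s * (E * E * R) i j) := by linarith
        rw [this]
        exact h4.neg_right
      rcases (Int.prime_three.dvd_or_dvd h5) with h | h
      · exact absurd (by exact_mod_cast h) h3
      · exact h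

/-- Minkowski's lemma: an integral matrix of finite order congruent to `1` modulo `3` is `1`. -/
theorem eq_one_of_pow {A : Matrix n n ℤ} {k : ℕ} (hk : 0 < k) (hA : A ^ k = 1)
    (h3 : ∀ i j, (3 : ℤ) ∣ (A - 1) i j) : A = 1 := by
  have key : ∀ s : ℕ, ∃ E : Matrix n n ℤ, A = 1 + (3 ^ (s + 1) : ℤ) • E := by
    have hdiv : ∀ M : Matrix n n ℤ, (∀ i j, (3 : ℤ) ∣ M i j) → ∃ E : Matrix n n ℤ, M = (3 : ℤ) • E := by
      intro M hM
      choose E hE using hM
      refine ⟨Matrix.of E, ?_⟩
      ext i j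
      rw [Matrix.smul_apply, Matrix.of_apply, smul_eq_mul, hE]
    intro s
    induction s with
    | zero =>
      obtain ⟨E, hE⟩ := hdiv _ h3
      refine ⟨E, ?_⟩
      rw [zero_add, pow_one, ← hE]
      abel
    | succ s ih =>
      obtain ⟨E, hE⟩ := ih
      have h1 := three_dvd k hk (s + 1) E (by omega) (by rw [← hE]; exact hA)
      obtain ⟨E', hE'⟩ := hdiv _ h1
      refine ⟨E', ?_⟩
      rw [hE, hE', smul_smul, ← pow_succ]
  ext i j
  by_contra hne
  have hne' : (A - 1) i j ≠ 0 := by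
    rw [Matrix.sub_apply]
    intro h
    exact hne (sub_eq_zero.1 h)
  obtain ⟨s, hs⟩ : ∃ s : ℕ, ((A - 1) i j).natAbs < 3 ^ (s + 1) :=
    ⟨((A - 1) i j).natAbs, (Nat.lt_pow_self (by norm_num)).trans
      (Nat.pow_lt_pow_right (by norm_num) (Nat.lt_succ_self _))⟩
  obtain ⟨E, hE⟩ := key s
  have h1 : (A - 1) i j = 3 ^ (s + 1) * E i j := by
    rw [hE, add_sub_cancel_left, Matrix.smul_apply, smul_eq_mul]
  have h2 : (3 ^ (s + 1) : ℤ) ∣ (A - 1) i j := ⟨_, h1⟩
  have h3' := Int.natAbs_dvd_natAbs.2 h2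
  rw [Int.natAbs_pow] at h3'
  have h4 := Nat.le_of_dvd (Int.natAbs_pos.2 hne') h3'
  exact absurd hs (not_lt.2 (by simpa using h4))

end Mat

variable {V : Type*} [NormedAddCommGroup V] [NormedSpace ℂ V] [FiniteDimensional ℂ V]
  {Γ : Subgroup (V ≃ᵃ[ℂ] V)}

/-- The number of the linear parts is at most `3 ^ (4 d ^ 2)`, `d = dim V`. -/
theorem card_Lin_le (hΓ : IsTorusQuotient Γ) :
    Nat.card (Lin Γ) ≤ 3 ^ (2 * Module.finrank ℂ V) ^ 2 := by
  classical
  have := finite_Lin hΓ
  have : FiniteDimensional ℝ V := FiniteDimensional.complexToReal V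
  let Λ : Submodule ℤ V := (latt Γ).toIntSubmodule
  have hd : DiscreteTopology Λ := hΓ.discrete
  have hz : IsZLattice ℝ Λ := ⟨hΓ.span_top⟩
  have : Module.Finite ℤ Λ := ZLattice.module_finite ℝ Λ
  have : Module.Free ℤ Λ := ZLattice.module_free ℝ Λ
  let b := Module.Free.chooseBasis ℤ Λ
  let B := b.ofZLatticeBasis ℝ Λ
  have hfin : Fintype.card (Module.Free.ChooseBasisIndex ℤ Λ) = 2 * Module.finrank ℂ V := by
    rw [← Module.finrank_eq_card_basis B, ← Module.finrank_mul_finrank ℝ ℂ V,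
      Complex.finrank_real_complex]
  have hmem : ∀ (g : Lin Γ) (x : Λ), g.1 (x : V) ∈ Λ := by
    rintro ⟨_, γ, hγ, rfl⟩ x
    exact latt_inv γ hγ x.2
  let res : Lin Γ → (Λ →ₗ[ℤ] Λ) := fun g =>
    { toFun := fun x => ⟨g.1 (x : V), hmem g x⟩
      map_add' := fun x y => Subtype.ext (map_add g.1 _ _)
      map_smul' := fun c x => Subtype.ext (by
        change g.1 ((c • x : Λ) : V) = c • g.1 (x : V)
        rw [Submodule.coe_smul, map_zsmul]) }
  let M : Lin Γ → Matrix _ _ ℤ := fun g => LinearMap.toMatrix b b (res g)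
  have hMmul : ∀ g h, M (g * h) = M g * M h := by
    intro g h
    have h1 : res (g * h) = res g ∘ₗ res h := by
      ext x
      rfl
    simp only [M]
    rw [h1, LinearMap.toMatrix_comp b b b]
  have hMone : M 1 = 1 := by
    have h1 : res 1 = LinearMap.id := by
      ext x
      rfl
    simp only [M]
    rw [h1, LinearMap.toMatrix_id]
  have hMpow : ∀ (g : Lin Γ) (k : ℕ), M (g ^ k) = M g ^ k := by
    intro g k
    induction k with
    | zero => rw [pow_zero, pow_zero, hMone]
    | succ k ih => rw [pow_succ, pow_succ, hMmul, ih]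
  have hMinj : ∀ g, M g = 1 → g = 1 := by
    intro g hg
    have h1 : res g = LinearMap.id := by
      apply (LinearMap.toMatrix b b).injective
      rw [LinearMap.toMatrix_id]
      exact hg
    have h2 : ∀ x ∈ latt Γ, g.1 x = x := by
      intro x hx
      have h3 := LinearMap.congr_fun h1 ⟨x, hx⟩
      exact congrArg (fun y : Λ => (y : V)) h3
    apply Subtype.ext
    apply LinearEquiv.ext
    intro x
    have hx : x ∈ Submodule.span ℝ (latt Γ : Set V) := by rw [hΓ.span_top]; trivial
    induction hx using Submodule.span_induction with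
    | mem x hx => exact h2 x hx
    | zero => rw [map_zero, map_zero]
    | add x y _ _ hx hy => rw [map_add, map_add, hx, hy]
    | smul c x _ hx =>
      have h4 : ∀ (g : V ≃ₗ[ℂ] V), g (c • x) = c • g x := by
        intro g
        rw [← Complex.coe_smul, map_smul, Complex.coe_smul]
      rw [h4, h4, hx]
  let f : Lin Γ → Matrix (Module.Free.ChooseBasisIndex ℤ Λ) (Module.Free.ChooseBasisIndex ℤ Λ)
      (ZMod 3) := fun g => (M g).map (Int.castRingHom (ZMod 3))
  have hf : Function.Injective f := by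
    intro g h hgh
    have hk : 0 < Nat.card (Lin Γ) := Nat.card_pos
    have h0 : M (g * h⁻¹) = 1 := by
      refine eq_one_of_pow hk (by rw [← hMpow, pow_card_eq_one', hMone]) fun i j => ?_
      have h1 : (M (g * h⁻¹) - 1).map (Int.castRingHom (ZMod 3)) = 0 := by
        have h2 : (1 : Matrix (Module.Free.ChooseBasisIndex ℤ Λ) _ ℤ) = M h * M h⁻¹ := by
          rw [← hMmul, mul_inv_cancel, hMone]
        rw [h2, hMmul, ← sub_mul, ← RingHom.mapMatrix_apply, map_mul, map_sub]
        have h3 : (Int.castRingHom (ZMod 3)).mapMatrix (M g)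
            = (Int.castRingHom (ZMod 3)).mapMatrix (M h) := hgh
        rw [h3, sub_self, zero_mul]
      have h2 := congrFun (congrFun h1 i) j
      rw [Matrix.map_apply, Matrix.zero_apply] at h2
      exact (ZMod.intCast_zmod_eq_zero_iff_dvd _ 3).1 h2
    exact mul_inv_eq_one.1 (hMinj _ h0)
  have h1 := Nat.card_le_card_of_injective f hf
  refine h1.trans (le_of_eq ?_)
  change Nat.card (Module.Free.ChooseBasisIndex ℤ Λ → Module.Free.ChooseBasisIndex ℤ Λ → ZMod 3) = _
  rw [Nat.card_eq_fintype_card, Fintype.card_fun, Fintype.card_fun, ZMod.card, hfin, ← pow_mul, sq]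

/-- A uniform exponent. -/
theorem card_Lin_dvd (hΓ : IsTorusQuotient Γ) :
    Nat.card (Lin Γ) ∣ (3 ^ (2 * Module.finrank ℂ V) ^ 2).factorial :=
  have := finite_Lin hΓ
  Nat.dvd_factorial Nat.card_pos (card_Lin_le hΓ)

end Q47.EB
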