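import Pool.Agent.Y167.Eff
import Pool.Agent.TH735.AQ.Flat
import Pool.Agent.Q47.EB.Mink

/-!
# Effective global generation of ample line bundles on torus quotients
-/

set_option autoImplicit false

namespace Q47.EB

open Pool.Agent.W594.SYZ2 Pool.Agent.W594.SYZ2.TQ Pool.Agent.TH735.AQ Pool.Agent.Y167

variable {W : Type*} [NormedAddCommGroup W] [NormedSpace ℂ W] [FiniteDimensional ℂ W]
  {Δ : Subgroup (W ≃ᵃ[ℂ] W)} {A : LineBundle Δ} {H : W → W → ℂ} {F : W → ℂ}

/-- The line bundle is globally generated: at each point some global section is not zero. -/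
def GG (L : LineBundle Δ) : Prop := ∀ v, ∃ s, L.IsSection s ∧ s v ≠ 0

omit [FiniteDimensional ℂ W] in
theorem GG.mul {L : LineBundle Δ} {k m : ℕ} (h : GG (L.pow k)) (hd : k ∣ m) : GG (L.pow m) := by
  obtain ⟨j, rfl⟩ := hd
  intro v
  obtain ⟨s, ⟨hs1, hs2⟩, hs⟩ := h v
  refine ⟨fun w => s w ^ j, ⟨hs1.pow j, fun γ w => ?_⟩, pow_ne_zero _ hs⟩
  change s _ ^ j = L.e γ w ^ (k * j) * s w ^ j
  rw [hs2, mul_pow, pow_mul]
  rfl

/-- The square of the normalised semicharacter of the lattice. -/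
noncomputable def sq (A : LineBundle Δ) (H : W → W → ℂ) (F : W → ℂ) (b : W) : ℂ :=
  chi A F b ^ 2 * Complex.exp (-(Real.pi * H b b))

omit [FiniteDimensional ℂ W] in
theorem h_self_im (hH : IsHermitian H) (b : W) : H b b = (((H b b).re : ℝ) : ℂ) := by
  apply Complex.ext
  · simp
  · have := h_im_symm hH b b
    rw [Complex.ofReal_im]
    linarith

omit [FiniteDimensional ℂ W] in
theorem sq_norm (hH : IsHermitian H) (hF : IsPot A H F) {b : W} (hb : b ∈ latt Δ) :
    ‖sq A H F b‖ = 1 := by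
  have h1 := tw_norm hF (tr b hb) 0
  rw [tr_apply, add_zero, h_zero_left hH, Complex.zero_re, sub_zero] at h1
  rw [sq, norm_mul, norm_pow, chi_eq hb, h1, Complex.norm_exp, ← Real.exp_add]
  have : (-(Real.pi * H b b)).re = -(Real.pi * (H b b).re) := by
    rw [Complex.neg_re, Complex.re_ofReal_mul]
  rw [this, add_neg_cancel, Real.exp_zero]

omit [FiniteDimensional ℂ W] in
theorem exp_im (hH : IsHermitian H) (x y : W) :
    H x y - H y x = 2 * ((H x y).im : ℂ) * Complex.I := by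
  rw [hH.symm x y]
  apply Complex.ext
  · simp
  · simp
    ring

theorem sq_add (hH : IsHermitian H) (hF : IsPot A H F) {b c : W} (hb : b ∈ latt Δ)
    (hc : c ∈ latt Δ) : sq A H F (b + c) = sq A H F b * sq A H F c := by
  have h : tr (b + c) ((latt Δ).add_mem hb hc) = tr b hb * tr c hc := by
    apply Subtype.ext
    apply AffineEquiv.ext
    intro v
    change b + c + v = b + (c + v)
    rw [add_assoc]
  have h1 : chi A F (b + c) = chi A F b * Complex.exp (Real.pi * H c b) * chi A F c := by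
    rw [chi_eq ((latt Δ).add_mem hb hc), h, tw_mul, tr_apply, add_zero, tw_tr hH hF b hb c,
      chi_eq hb, chi_eq hc]
  obtain ⟨n, hn⟩ := im_int hH hF hb hc
  have h2 := exp_im hH b c
  rw [hn] at h2
  have h3 : H (b + c) (b + c) = H b b + H c c + H b c + H c b := by
    rw [hH.add_left, h_add_right hH, h_add_right hH]
    ring
  have h4 : Complex.exp (Real.pi * H c b) ^ 2 * Complex.exp (-(Real.pi * H (b + c) (b + c)))
      = Complex.exp (-(Real.pi * H b b)) * Complex.exp (-(Real.pi * H c c)) := by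
    rw [← Complex.exp_nat_mul, ← Complex.exp_add, ← Complex.exp_add,
      Complex.exp_eq_exp_iff_exists_int]
    refine ⟨-n, ?_⟩
    rw [h3]
    push_cast at h2 ⊢
    linear_combination (-(Real.pi : ℂ)) * h2
  simp only [sq]
  rw [h1]
  linear_combination (chi A F b ^ 2 * chi A F c ^ 2) * h4

/-- The centre of the theta functions. -/
theorem exists_center' (hΔ : IsTorusQuotient Δ) (hH : IsHermitian H) (hp : IsPositiveForm H)
    (hF : IsPot A H F) : ∃ c : W, ∀ b ∈ latt Δ,
      Complex.exp (4 * Real.pi * ((H c b).im : ℂ) * Complex.I) = sq A H F b := by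
  have : FiniteDimensional ℝ W := FiniteDimensional.complexToReal W
  obtain ⟨ℓ, hℓ⟩ := exists_real hΔ (latt Δ) le_rfl (sq A H F) (fun b hb => sq_norm hH hF hb)
    (fun b hb c hc => sq_add hH hF hb hc)
  let φ : W →ₗ[ℝ] (W →ₗ[ℝ] ℝ) := LinearMap.mk₂ ℝ (fun x y => (H x y).im)
    (fun x x' y => by rw [hH.add_left, Complex.add_im])
    (fun c x y => by
      rw [← Complex.coe_smul, hH.smul_left, Complex.im_ofReal_mul, smul_eq_mul])
    (fun x y y' => by rw [h_add_right hH, Complex.add_im])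
    (fun c x y => by
      rw [← Complex.coe_smul, h_smul_right hH, Complex.conj_ofReal, Complex.im_ofReal_mul,
        smul_eq_mul])
  have hinj : Function.Injective φ := by
    rw [injective_iff_map_eq_zero]
    intro x hx
    by_contra hne
    have h1 : (H x (Complex.I • x)).im = 0 := LinearMap.congr_fun hx (Complex.I • x)
    rw [h_smul_right hH] at h1
    simp only [Complex.conj_I, neg_mul, Complex.neg_im, Complex.mul_im, Complex.I_re, zero_mul,
      Complex.I_im, one_mul, zero_add, neg_eq_zero] at h1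
    exact (hp x hne).ne' h1
  have hsurj : Function.Surjective φ := by
    refine (LinearMap.injective_iff_surjective_of_finrank_eq_finrank ?_).1 hinj
    exact (Subspace.dual_finrank_eq (K := ℝ) (V := W)).symm
  obtain ⟨c, hc⟩ := hsurj ((4 * Real.pi)⁻¹ • ℓ)
  refine ⟨c, fun b hb => ?_⟩
  have h1 : (H c b).im = (4 * Real.pi)⁻¹ * ℓ b := LinearMap.congr_fun hc b
  rw [← hℓ b hb, h1]
  congr 1
  push_cast
  have := Real.pi_ne_zero
  field_simp

/-- The sections of the fourth power on the torus. -/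
theorem exists_torus_sections (hΔ : IsTorusQuotient Δ) (hH : IsHermitian H)
    (hp : IsPositiveForm H) (hF : IsPot A H F) :
    ∃ σ : W → W → ℂ, (∀ a, Differentiable ℂ (σ a)) ∧
      (∀ a (b : W) (hb : b ∈ latt Δ) (y : W), σ a (b + y) = A.e (tr b hb) y ^ 4 * σ a y) ∧
      ∀ y, Differentiable ℂ (fun a => σ a y) ∧ ∃ a, σ a y ≠ 0 := by
  obtain ⟨c, hc⟩ := exists_center' hΔ hH hp hF
  set H' : W → W → ℂ := fun v w => 2 * H v w with hH'
  have hH2 : IsHermitian H' := by
    refine ⟨fun u v w => ?_, fun a v w => ?_, fun v w => ?_⟩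
    · simp only [hH']; rw [hH.add_left, mul_add]
    · simp only [hH']; rw [hH.smul_left]; ring
    · simp only [hH']; rw [map_mul, ← hH.symm, map_ofNat]
  have hre : ∀ v w, (H' v w).re = 2 * (H v w).re := fun v w => by simp [hH']
  have him : ∀ v w, (H' v w).im = 2 * (H v w).im := fun v w => by simp [hH']
  obtain ⟨κ, hκ, hκ2⟩ := coercive hH2 ⊤ (fun v _ hv => by
    rw [hre]; exact mul_pos two_pos (hp v hv))
  have hgood : Good H' (latt Δ) := ⟨hH2, hΔ.discrete, κ, hκ, fun w _ => hκ2 w trivial⟩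
  set θ : W → ℂ := theta H' (latt Δ) with hθ
  have hθd : Differentiable ℂ θ := hgood.holo
  have hθ0 : θ 0 ≠ 0 := hgood.zero_ne
  have hθe : ∀ (x : W) {b : W}, b ∈ latt Δ →
      θ (x + b) = Complex.exp (Real.pi * H' x b + Real.pi / 2 * H' b b) * θ x := by
    intro x b hb
    refine theta_add hH2 (fun v hv w hw => ?_) x hb
    obtain ⟨n, hn⟩ := im_int hH hF hv hw
    exact ⟨n, by rw [him, hn]⟩
  refine ⟨fun a y => Complex.exp (4 * F y) * (Complex.exp (-(2 * Real.pi * H' y c))
    * (θ (y + (c + a)) * θ (y + (c - a)))), ?_, ?_, ?_⟩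
  · intro a
    have e1 : Differentiable ℂ fun y : W => H' y c := by
      have e2 : (fun v : W => H' v c) = LinearMap.toContinuousLinearMap (hl hH2 c) := rfl
      rw [e2]
      exact ContinuousLinearMap.differentiable _
    exact ((hF.1.const_mul (4 : ℂ)).cexp).mul ((((e1.const_mul (2 * Real.pi : ℂ)).neg).cexp).mul
      ((hθd.comp (differentiable_id.add_const (c + a))).mul
        (hθd.comp (differentiable_id.add_const (c - a)))))
  · intro a b hb y
    have h1 : A.e (tr b hb) y = tw A F (tr b hb) y * Complex.exp (F (b + y) - F y) := by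
      rw [tw, tr_apply, mul_assoc, ← Complex.exp_add]
      simp
    have h2 := tw_tr hH hF b hb y
    have h3 := hc b hb
    have h5 : b + y + (c + a) = (y + (c + a)) + b := by abel
    have h6 : b + y + (c - a) = (y + (c - a)) + b := by abel
    have h7 : (4 * Real.pi * ((H c b).im : ℂ) * Complex.I) = 2 * Real.pi * (H c b - H b c) := by
      rw [exp_im hH c b]
      ring
    rw [h7, sq] at h3
    beta_reduce
    rw [h5, h6, hθe _ hb, hθe _ hb, h1, h2, ← chi_eq hb]
    have h8 : chi A F b ^ 4 = Complex.exp (4 * Real.pi * (H c b - H b c)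
        + 2 * Real.pi * H b b) := by
      have h9 : chi A F b ^ 2 = Complex.exp (2 * Real.pi * (H c b - H b c) + Real.pi * H b b) := by
        rw [Complex.exp_add, h3, mul_assoc, ← Complex.exp_add, neg_add_cancel, Complex.exp_zero,
          mul_one]
      have h10 : chi A F b ^ 4 = (chi A F b ^ 2) ^ 2 := by ring
      rw [h10, h9, ← Complex.exp_nat_mul]
      congr 1
      push_cast
      ring
    have h11 : (chi A F b * Complex.exp (Real.pi * H y b) * Complex.exp (F (b + y) - F y)) ^ 4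
        = chi A F b ^ 4 * Complex.exp (4 * (Real.pi * H y b) + 4 * (F (b + y) - F y)) := by
      rw [mul_pow, mul_pow, mul_assoc, ← Complex.exp_nat_mul, ← Complex.exp_nat_mul,
        ← Complex.exp_add]
      push_cast
      rfl
    rw [h11, h8]
    simp only [hH', h_add_right hH, hH.add_left, h_sub_left hH]
    have lhs : ∀ (p q r s x1 x2 : ℂ), Complex.exp p * (Complex.exp q * (Complex.exp r * x1
        * (Complex.exp s * x2))) = Complex.exp (p + q + r + s) * (x1 * x2) := by
      intro p q r s x1 x2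
      rw [Complex.exp_add, Complex.exp_add, Complex.exp_add]
      ring
    have rhs : ∀ (p q r s x1 x2 : ℂ), Complex.exp p * Complex.exp q * (Complex.exp r * (Complex.exp s
        * (x1 * x2))) = Complex.exp (p + q + r + s) * (x1 * x2) := by
      intro p q r s x1 x2
      rw [Complex.exp_add, Complex.exp_add, Complex.exp_add]
      ring
    rw [lhs, rhs]
    congr 2
    ring
  · intro y
    have e1 : Differentiable ℂ fun a : W => θ (y + (c + a)) :=
      hθd.comp ((differentiable_id.const_add c).const_add y)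
    have e2 : Differentiable ℂ fun a : W => θ (y + (c - a)) :=
      hθd.comp ((differentiable_id.const_sub c).const_add y)
    refine ⟨((e1.mul e2).const_mul _).const_mul _, ?_⟩
    obtain ⟨a, h1, h2⟩ := exists_common e1 e2 ⟨-y - c, by
      have : y + (c + (-y - c)) = 0 := by abel
      rwa [this]⟩ ⟨y + c, by
      have : y + (c - (y + c)) = 0 := by abel
      rwa [this]⟩
    exact ⟨a, mul_ne_zero (Complex.exp_ne_zero _) (mul_ne_zero (Complex.exp_ne_zero _)
      (mul_ne_zero h1 h2))⟩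

/-- The norm of a section on the torus. -/
theorem norm_section (hΔ : IsTorusQuotient Δ) (r : Lin Δ → Δ)
    (hr : ∀ g, ((r g : Δ) : W ≃ᵃ[ℂ] W).linear = g.1) [Fintype (Lin Δ)] {k : ℕ} {σ : W → ℂ}
    (hσ : Differentiable ℂ σ)
    (he : ∀ (b : W) (hb : b ∈ latt Δ) (y : W), σ (b + y) = A.e (tr b hb) y ^ k * σ y) :
    (A.pow (k * Nat.card (Lin Δ))).IsSection
      (fun v => ∏ g : Lin Δ, σ ((r g : W ≃ᵃ[ℂ] W) v) * (A.e (r g) v ^ k)⁻¹) := by
  classical
  constructor
  · refine prod_holo Finset.univ (fun (g : Lin Δ) v => σ ((r g : W ≃ᵃ[ℂ] W) v) *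
      (A.e (r g) v ^ k)⁻¹) fun g _ => ?_
    have h1 : Differentiable ℂ fun v => (A.e (r g) v ^ k)⁻¹ :=
      Differentiable.inv (h := fun v => A.e (r g) v ^ k) ((A.holo (r g)).pow k)
        fun v => pow_ne_zero _ (A.ne_zero _ _)
    exact (hσ.comp (affine_differentiable _)).mul h1
  · intro δ v
    let d : Lin Δ := ⟨(δ : W ≃ᵃ[ℂ] W).linear, δ, δ.2, rfl⟩
    have key : ∀ g : Lin Δ, σ ((r g : W ≃ᵃ[ℂ] W) ((δ : W ≃ᵃ[ℂ] W) v)) *
        (A.e (r g) ((δ : W ≃ᵃ[ℂ] W) v) ^ k)⁻¹ = A.e δ v ^ k *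
          (σ ((r (g * d) : W ≃ᵃ[ℂ] W) v) * (A.e (r (g * d)) v ^ k)⁻¹) := by
      intro g
      have h1 : ∀ w, ((r g * δ * (r (g * d))⁻¹ : Δ) : W ≃ᵃ[ℂ] W).linear w = w := by
        intro w
        have h2 : ((r g * δ * (r (g * d))⁻¹ : Δ) : W ≃ᵃ[ℂ] W).linear w
            = (r g : W ≃ᵃ[ℂ] W).linear ((δ : W ≃ᵃ[ℂ] W).linear
              ((r (g * d) : W ≃ᵃ[ℂ] W).linear.symm w)) := rfl
        rw [h2, hr, hr]
        have h3 : (g * d).1.symm w = d.1.symm (g.1.symm w) := rfl
        rw [h3]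
        change g.1 (d.1 (d.1.symm (g.1.symm w))) = w
        rw [LinearEquiv.apply_symm_apply, LinearEquiv.apply_symm_apply]
      obtain ⟨hb, hγ⟩ := eq_tr _ h1
      set b := ((r g * δ * (r (g * d))⁻¹ : Δ) : W ≃ᵃ[ℂ] W) 0 with hbdef
      have h4 : r g * δ = tr b hb * r (g * d) := by
        rw [← hγ, inv_mul_cancel_right]
      have h5 : (r g : W ≃ᵃ[ℂ] W) ((δ : W ≃ᵃ[ℂ] W) v) = b + (r (g * d) : W ≃ᵃ[ℂ] W) v := by
        have h6 : (r g : W ≃ᵃ[ℂ] W) ((δ : W ≃ᵃ[ℂ] W) v) = ((r g * δ : Δ) : W ≃ᵃ[ℂ] W) v := rfl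
        rw [h6, h4]
        rfl
      have h6 : A.e (r g) ((δ : W ≃ᵃ[ℂ] W) v) * A.e δ v
          = A.e (tr b hb) ((r (g * d) : W ≃ᵃ[ℂ] W) v) * A.e (r (g * d)) v := by
        rw [← A.mul, ← A.mul, h4]
      rw [h5, he b hb]
      have n1 := A.ne_zero (r g) ((δ : W ≃ᵃ[ℂ] W) v)
      have n2 := A.ne_zero (r (g * d)) v
      have n3 := A.ne_zero δ v
      have h7 : A.e (tr b hb) ((r (g * d) : W ≃ᵃ[ℂ] W) v) ^ k
          = A.e (r g) ((δ : W ≃ᵃ[ℂ] W) v) ^ k * A.e δ v ^ k * (A.e (r (g * d)) v ^ k)⁻¹ := by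
        rw [← mul_pow, h6, mul_pow, mul_assoc, mul_inv_cancel₀ (pow_ne_zero _ n2), mul_one]
      rw [h7]
      field_simp
    change _ = A.e δ v ^ (k * Nat.card (Lin Δ)) * _
    rw [Finset.prod_congr rfl fun g _ => key g, Finset.prod_mul_distrib, Finset.prod_const,
      Finset.card_univ, ← Nat.card_eq_fintype_card, ← pow_mul]
    congr 1
    exact Fintype.prod_equiv (Equiv.mulRight d) _ _ fun g => rfl

/-- Effective global generation for ample line bundles on torus quotients. -/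
theorem ample_gg (hΔ : IsTorusQuotient Δ) (hc : IsChernForm A H) (hp : IsPositiveForm H) :
    GG (A.pow (4 * Nat.card (Lin Δ))) := by
  classical
  have := finite_Lin hΔ
  have : Fintype (Lin Δ) := Fintype.ofFinite _
  obtain ⟨hH, F, hF, hFe⟩ := hc
  obtain ⟨σ, h1, h2, h3⟩ := exists_torus_sections hΔ hH hp (A := A) ⟨hF, hFe⟩
  have hr : ∀ g : Lin Δ, ∃ γ : Δ, (γ : W ≃ᵃ[ℂ] W).linear = g.1 := by
    rintro ⟨g, γ, hγ, rfl⟩
    exact ⟨⟨γ, hγ⟩, rfl⟩
  choose r hr using hr
  intro v
  obtain ⟨a, ha⟩ := prod_ne Finset.univ (fun (g : Lin Δ) a => σ a ((r g : W ≃ᵃ[ℂ] W) v))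
    (fun g _ => (h3 _).1) (fun g _ => (h3 _).2)
  refine ⟨_, norm_section hΔ r hr (h1 a) (h2 a), ?_⟩
  rw [Finset.prod_mul_distrib]
  exact mul_ne_zero ha (Finset.prod_ne_zero_iff.2 fun g _ =>
    inv_ne_zero (pow_ne_zero _ (A.ne_zero _ _)))

end Q47.EB
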