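import Pool.Agent.Q47.EB.Amp
import Pool.Agent.TH735.AQ.Uniq

/-!
# Effective global generation of nef line bundles on torus quotients
-/

set_option autoImplicit false

namespace Q47.EB

open Pool.Agent.W594.SYZ2 Pool.Agent.W594.SYZ2.TQ Pool.Agent.TH735.AQ Pool.Agent.Y167

variable {V W : Type*} [NormedAddCommGroup V] [NormedSpace ℂ V] [FiniteDimensional ℂ V]
  [NormedAddCommGroup W] [NormedSpace ℂ W] [FiniteDimensional ℂ W]
  {Γ : Subgroup (V ≃ᵃ[ℂ] V)} {L : LineBundle Γ} {H : V → V → ℂ} {F : V → ℂ}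

/-- A line bundle with a globally generated positive power is nef. -/
theorem nef_of_gg (hΓ : IsTorusQuotient Γ) (hH : IsHermitian H) (hF : IsPot L H F) {k : ℕ}
    (hk : 1 ≤ k) (h : GG (L.pow k)) : IsNefForm H := by
  have : ProperSpace V := FiniteDimensional.proper ℂ V
  intro x
  by_contra hneg
  push Not at hneg
  set a := (H x x).re with ha
  obtain ⟨s, ⟨hs1, hs2⟩, hs0⟩ := h 0
  have hk0 : (0 : ℝ) < k := by exact_mod_cast hk
  let u : V → ℂ := fun v => s v * Complex.exp (-(k * F v))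
  have hu : Differentiable ℂ u := hs1.mul ((hF.1.const_mul (k : ℂ)).neg.cexp)
  have hut : ∀ (γ : Γ) (v : V), u ((γ : V ≃ᵃ[ℂ] V) v) = tw L F γ v ^ k * u v := by
    intro γ v
    have h1 : s ((γ : V ≃ᵃ[ℂ] V) v) = L.e γ v ^ k * s v := hs2 γ v
    simp only [u]
    rw [h1, tw, mul_pow, ← Complex.exp_nat_mul]
    have h2 : Complex.exp (-(k * F ((γ : V ≃ᵃ[ℂ] V) v)))
        = Complex.exp (k * (F v - F ((γ : V ≃ᵃ[ℂ] V) v))) * Complex.exp (-(k * F v)) := by
      rw [← Complex.exp_add]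
      congr 1
      ring
    rw [h2]
    ring
  let φ : V → ℝ := fun v => ‖u v‖ ^ 2 * Real.exp (-(k * (Real.pi * (H v v).re)))
  have hper : ∀ (γ : Γ) (v : V), φ ((γ : V ≃ᵃ[ℂ] V) v) = φ v := by
    intro γ v
    simp only [φ]
    rw [hut, norm_mul, norm_pow, mul_pow, ← pow_mul, mul_comm k 2, pow_mul, tw_norm hF,
      ← Real.exp_nat_mul]
    have e : ∀ a b c d : ℝ, a * b * c = b * (a * c) := fun a b c d => by ring
    rw [e _ _ _ 0, ← Real.exp_add]
    congr 2
    ring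
  have hφc : Continuous φ := by
    refine ((hu.continuous.norm).pow 2).mul (Real.continuous_exp.comp ?_)
    exact (((diag_continuous hH).const_mul Real.pi).const_mul (k : ℝ)).neg
  obtain ⟨C, hC⟩ := cobounded (latt Γ) hΓ.span_top
  have hK : IsCompact (Metric.closedBall (0 : V) C) := isCompact_closedBall _ _
  obtain ⟨R, hR⟩ := (isBounded_iff_forall_norm_le.1 (hK.image hφc).isBounded)
  have hbd : ∀ v, φ v ≤ R := by
    intro v
    obtain ⟨b, hb, hbC⟩ := hC v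
    rw [← hper (tr b hb) v, tr_apply]
    exact (le_abs_self _).trans (hR _ ⟨b + v, by rwa [mem_closedBall_zero_iff], rfl⟩)
  have hR0 : 0 ≤ R := (mul_nonneg (sq_nonneg _) (Real.exp_pos _).le).trans (hbd 0)
  have hup : ∀ z : ℂ, ‖u (z • x)‖ ^ 2 ≤ R * Real.exp (k * (Real.pi * (‖z‖ ^ 2 * a))) := by
    intro z
    have h1 := mul_le_mul_of_nonneg_right (hbd (z • x))
      (Real.exp_pos (k * (Real.pi * (H (z • x) (z • x)).re))).le
    have h2 : φ (z • x) * Real.exp (k * (Real.pi * (H (z • x) (z • x)).re)) = ‖u (z • x)‖ ^ 2 := by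
      simp only [φ]
      rw [mul_assoc, ← Real.exp_add, neg_add_cancel, Real.exp_zero, mul_one]
    rw [h2, h_diag_smul hH] at h1
    exact h1
  have hconst : ∀ z : ℂ, u (z • x) = u 0 := by
    intro z
    have hline : Differentiable ℂ fun z : ℂ => z • x := differentiable_id.smul_const x
    have hb : Bornology.IsBounded (Set.range fun z : ℂ => u (z • x)) := by
      rw [isBounded_iff_forall_norm_le]
      refine ⟨R + 1, ?_⟩
      rintro _ ⟨z, rfl⟩
      have h1 : Real.exp (k * (Real.pi * (‖z‖ ^ 2 * a))) ≤ 1 := by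
        rw [Real.exp_le_one_iff]
        have h2 : Real.pi * (‖z‖ ^ 2 * a) ≤ 0 :=
          mul_nonpos_of_nonneg_of_nonpos Real.pi_pos.le
            (mul_nonpos_of_nonneg_of_nonpos (sq_nonneg _) hneg.le)
        exact mul_nonpos_of_nonneg_of_nonpos hk0.le h2
      have h2 := hup z
      have h3 : ‖u (z • x)‖ ^ 2 ≤ R := h2.trans (mul_le_of_le_one_right hR0 h1)
      nlinarith [norm_nonneg (u (z • x)), sq_nonneg (‖u (z • x)‖ - 1)]
    have h1 := (hu.comp hline).apply_eq_apply_of_bounded hb z 0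
    have h2 : u (z • x) = u ((0 : ℂ) • x) := h1
    rw [h2, zero_smul]
  have hu0 : 0 < ‖u 0‖ ^ 2 :=
    pow_pos (norm_pos_iff.2 (mul_ne_zero hs0 (Complex.exp_ne_zero _))) 2
  have hlim : Filter.Tendsto (fun t : ℕ => R * Real.exp (k * (Real.pi * ((t : ℝ) ^ 2 * a))))
      Filter.atTop (nhds (R * 0)) := by
    refine Filter.Tendsto.const_mul R (Real.tendsto_exp_atBot.comp ?_)
    have h1 : Filter.Tendsto (fun t : ℕ => (t : ℝ) ^ 2) Filter.atTop Filter.atTop :=
      (Filter.tendsto_pow_atTop two_ne_zero).comp tendsto_natCast_atTop_atTop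
    have h2 := h1.atTop_mul_const_of_neg (r := k * Real.pi * a)
      (mul_neg_of_pos_of_neg (mul_pos hk0 Real.pi_pos) hneg)
    refine h2.congr fun t => ?_
    ring
  rw [mul_zero] at hlim
  have h1 : ∀ t : ℕ, ‖u 0‖ ^ 2 ≤ R * Real.exp (k * (Real.pi * ((t : ℝ) ^ 2 * a))) := by
    intro t
    have h2 := hup (t : ℂ)
    rwa [hconst, Complex.norm_natCast] at h2
  exact absurd (ge_of_tendsto' hlim h1) (not_le.2 hu0)

/-- The pullback of sections from the base of the fibration. -/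
theorem gg_of_sit {π : V →ₗ[ℂ] W} {hH : IsHermitian H} {N : ℕ} (S : Sit Γ L H F π hH N) {k : ℕ}
    (h : GG ((bun S).pow k)) : GG (L.pow (ex Γ N * k)) := by
  have hπ : Differentiable ℂ fun v => π v := by
    have h1 : (fun v => π v) = LinearMap.toContinuousLinearMap π := rfl
    rw [h1]
    exact ContinuousLinearMap.differentiable _
  intro v
  obtain ⟨s, ⟨hs1, hs2⟩, hs0⟩ := h (π v)
  refine ⟨fun v => s (π v) * Complex.exp ((ex Γ N * k : ℕ) * F v), ⟨?_, ?_⟩,
    mul_ne_zero hs0 (Complex.exp_ne_zero _)⟩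
  · exact (hs1.comp hπ).mul ((S.pot.1.const_mul _).cexp)
  · intro γ v
    obtain ⟨δ, hδ, hδe⟩ := exists_Del π S.surj (fun γ hγ v hv =>
      (S.ker_iff _).2 (S.pres γ hγ v ((S.ker_iff _).1 hv))) (γ : V ≃ᵃ[ℂ] V) γ.2
    have h1 := hs2 ⟨δ, hδ⟩ (π v)
    have h2 : ((bun S).pow k).e ⟨δ, hδ⟩ (π v) = (tw L F γ v ^ ex Γ N) ^ k := by
      change (bun S).e ⟨δ, hδ⟩ (π v) ^ k = _
      rw [bun_e S γ ⟨δ, hδ⟩ hδe v]
    have h3 : ((⟨δ, hδ⟩ : Del Γ π) : W ≃ᵃ[ℂ] W) (π v) = π ((γ : V ≃ᵃ[ℂ] V) v) := hδe v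
    rw [h3, h2, ← pow_mul, tw, mul_pow, ← Complex.exp_nat_mul] at h1
    change s (π ((γ : V ≃ᵃ[ℂ] V) v)) * _ = L.e γ v ^ (ex Γ N * k) * _
    rw [h1]
    have h4 : Complex.exp (((ex Γ N * k : ℕ) : ℂ) * F v) = Complex.exp (((ex Γ N * k : ℕ) : ℂ) *
        (F v - F ((γ : V ≃ᵃ[ℂ] V) v))) *
          Complex.exp (((ex Γ N * k : ℕ) : ℂ) * F ((γ : V ≃ᵃ[ℂ] V) v)) := by
      rw [← Complex.exp_add]
      congr 1
      ring
    rw [h4]
    ring

/-- The number `(3 ^ (4 d ^ 2))!`, a multiple of the orders of the groups of the linear parts. -/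
def mink (d : ℕ) : ℕ := (3 ^ (2 * d) ^ 2).factorial

theorem mink_pos (d : ℕ) : 0 < mink d := Nat.factorial_pos _

theorem mink_dvd {d e : ℕ} (h : d ≤ e) : mink d ∣ mink e :=
  Nat.factorial_dvd_factorial (Nat.pow_le_pow_right (by norm_num)
    (Nat.pow_le_pow_left (Nat.mul_le_mul_left 2 h) 2))

/-- The uniform exponent `4 ((3 ^ (4 d ^ 2))!) ^ 3`. -/
def expo (d : ℕ) : ℕ := 4 * mink d ^ 3

theorem expo_pos (d : ℕ) : 0 < expo d := Nat.mul_pos (by norm_num) (pow_pos (mink_pos d) 3)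

/-- Effective global generation, if the character of the kernel lattice is torsion. -/
theorem gg_of_root (hΓ : IsTorusQuotient Γ) (hH : IsHermitian H) (hF : IsPot L H F)
    (hn : IsNefForm H) {N : ℕ} (hN : 1 ≤ N) (hd : N ∣ mink (Module.finrank ℂ V))
    (hroot : ∀ b ∈ latt Γ, b ∈ ker hH → chi L F b ^ N = 1) :
    GG (L.pow (expo (Module.finrank ℂ V))) := by
  let n := Module.finrank ℂ (V ⧸ ker hH)
  let e : (V ⧸ ker hH) ≃ₗ[ℂ] (Fin n → ℂ) := (Module.finBasis ℂ (V ⧸ ker hH)).equivFun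
  let π : V →ₗ[ℂ] (Fin n → ℂ) := (e : (V ⧸ ker hH) →ₗ[ℂ] (Fin n → ℂ)) ∘ₗ (ker hH).mkQ
  have S : Sit Γ L H F π hH N := by
    refine ⟨hΓ, hF, hn, ?_, ?_, hN, hroot⟩
    · exact e.surjective.comp (ker hH).mkQ_surjective
    · intro v
      change e ((ker hH).mkQ v) = 0 ↔ v ∈ ker hH
      rw [LinearEquiv.map_eq_zero_iff, Submodule.mkQ_apply, Submodule.Quotient.mk_eq_zero]
  have h1 := gg_of_sit S (ample_gg S.base (HA_chern S) (HA_pos S))
  refine h1.mul ?_
  have h2 : Nat.card (Lin Γ) ∣ mink (Module.finrank ℂ V) := card_Lin_dvd hΓ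
  have h3 : Nat.card (Lin (Del Γ π)) ∣ mink (Module.finrank ℂ V) := by
    refine (card_Lin_dvd S.base).trans (mink_dvd ?_)
    rw [Module.finrank_fin_fun]
    exact Submodule.finrank_quotient_le _
  have h4 := Nat.mul_dvd_mul (Nat.mul_dvd_mul h2 hd) (Nat.mul_dvd_mul (dvd_refl 4) h3)
  have h5 : expo (Module.finrank ℂ V) = mink (Module.finrank ℂ V) * mink (Module.finrank ℂ V)
      * (4 * mink (Module.finrank ℂ V)) := by
    rw [expo]
    ring
  rw [h5]
  exact h4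

/-- Effective semiampleness for torus quotients with `H^1(O) = 0`. -/
theorem gg_of_hone (hΓ : IsTorusQuotient Γ) (h01 : HOneZero Γ) (hH : IsHermitian H)
    (hF : IsPot L H F) (hn : IsNefForm H) : GG (L.pow (expo (Module.finrank ℂ V))) := by
  have := finite_Lin hΓ
  exact gg_of_root hΓ hH hF hn (Nat.card_pos : 0 < Nat.card (Lin Γ)) (card_Lin_dvd hΓ)
    fun b hb hbK => chi_pow hΓ h01 hH hF hb hbK

end Q47.EB
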