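import Pool.Agent.Q276.SYZ.Ex2
import Pool.Agent.Q47.EB.Nef

/-!
# Primitive symplectic torus quotients given by doubly transitive permutation groups
-/

set_option autoImplicit false
set_option linter.unusedSectionVars false

namespace Q47.EB.Ex

open Pool.Agent.W594.SYZ2
open Q276.SYZ (IsGauss isGauss_zero isGauss_one gauss_small)

variable {ι : Type} [Fintype ι] [DecidableEq ι]

/-- Two copies of the space of the functions with sum zero. -/
def W (ι : Type) [Fintype ι] : Submodule ℂ (Fin 2 → ι → ℂ) where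
  carrier := {v | ∀ j, ∑ i, v j i = 0}
  add_mem' := by
    intro v w hv hw j
    simp only [Pi.add_apply, Finset.sum_add_distrib, hv j, hw j, add_zero]
  zero_mem' := fun j => by simp
  smul_mem' := by
    intro c v hv j
    simp only [Pi.smul_apply, smul_eq_mul, ← Finset.mul_sum, hv j, mul_zero]

/-- The vector space. -/
def V (ι : Type) [Fintype ι] : Type := W ι

noncomputable instance : NormedAddCommGroup (V ι) := inferInstanceAs (NormedAddCommGroup (W ι))

noncomputable instance : NormedSpace ℂ (V ι) := inferInstanceAs (NormedSpace ℂ (W ι))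

instance : FiniteDimensional ℂ (V ι) := inferInstanceAs (FiniteDimensional ℂ (W ι))

/-- The coordinates. -/
noncomputable def co : V ι →ₗ[ℂ] (Fin 2 → ι → ℂ) := (W ι).subtype

theorem co_ext {v w : V ι} (h : ∀ j i, co v j i = co w j i) : v = w :=
  Subtype.ext (funext fun j => funext fun i => h j i)

theorem co_sum (v : V ι) (j : Fin 2) : ∑ i, co v j i = 0 := v.2 j

theorem norm_co (v : V ι) : ‖v‖ = ‖co v‖ := rfl

/-- The vector with given coordinates. -/
def mk (f : Fin 2 → ι → ℂ) (h : ∀ j, ∑ i, f j i = 0) : V ι := ⟨f, h⟩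

theorem co_mk (f : Fin 2 → ι → ℂ) (h : ∀ j, ∑ i, f j i = 0) : co (mk f h) = f := rfl

/-- The basic vectors. -/
noncomputable def E (j : Fin 2) (i : ι) : V ι :=
  mk (fun j' i' => if j' = j then (if i' = i then 1 else 0) - (Fintype.card ι : ℂ)⁻¹ else 0) (by
    intro j'
    have : Nonempty ι := ⟨i⟩
    have hc : (Fintype.card ι : ℂ) ≠ 0 := by exact_mod_cast Fintype.card_ne_zero
    by_cases h : j' = j
    · simp only [h, if_true, Finset.sum_sub_distrib, Finset.sum_ite_eq', Finset.mem_univ,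
        Finset.sum_const, Finset.card_univ, nsmul_eq_mul, mul_inv_cancel₀ hc, sub_self]
    · simp [h])

theorem E_apply (j : Fin 2) (i : ι) (j' : Fin 2) (i' : ι) : co (E j i) j' i' =
    if j' = j then (if i' = i then 1 else 0) - (Fintype.card ι : ℂ)⁻¹ else 0 := rfl

theorem E_sum (j : Fin 2) : ∑ i, (E j i : V ι) = 0 := by
  apply co_ext
  intro j' i'
  have : Nonempty ι := ⟨i'⟩
  have hc : (Fintype.card ι : ℂ) ≠ 0 := by exact_mod_cast Fintype.card_ne_zero
  rw [map_sum, Finset.sum_apply, Finset.sum_apply, map_zero]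
  simp only [E_apply]
  by_cases h : j' = j
  · simp [h, Finset.sum_sub_distrib]
  · simp [h]

theorem expand (v : V ι) : v = ∑ j, ∑ i, co v j i • E j i := by
  apply co_ext
  intro j' i'
  rw [map_sum, Finset.sum_apply, Finset.sum_apply]
  have h1 : ∀ j, co (∑ i, co v j i • E j i) j' i'
      = if j' = j then co v j' i' else 0 := by
    intro j
    rw [map_sum, Finset.sum_apply, Finset.sum_apply]
    have h2 : ∀ i, co (co v j i • E j i) j' i'
        = co v j i * co (E j i) j' i' := fun i => by rw [map_smul]; rfl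
    simp only [h2, E_apply]
    by_cases h : j' = j
    · subst h
      simp only [if_true, mul_sub, Finset.sum_sub_distrib, mul_ite, mul_one, mul_zero,
        Finset.sum_ite_eq, Finset.mem_univ, ← Finset.sum_mul, co_sum, zero_mul, sub_zero]
    · simp [h]
  simp only [h1, Finset.sum_ite_eq, Finset.mem_univ, if_true]

/-- The action of the permutations. -/
noncomputable def act (σ : Equiv.Perm ι) : V ι ≃ₗ[ℂ] V ι where
  toFun v := mk (fun j i => co v j (σ.symm i)) fun j => by
    rw [← co_sum v j]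
    exact Equiv.sum_comp σ.symm fun i => co v j i
  invFun v := mk (fun j i => co v j (σ i)) fun j => by
    rw [← co_sum v j]
    exact Equiv.sum_comp σ fun i => co v j i
  map_add' _ _ := rfl
  map_smul' _ _ := rfl
  left_inv v := by
    apply co_ext
    intro j i
    simp [co_mk]
  right_inv v := by
    apply co_ext
    intro j i
    simp [co_mk]

theorem act_apply (σ : Equiv.Perm ι) (v : V ι) (j : Fin 2) (i : ι) :
    co (act σ v) j i = co v j (σ.symm i) := rfl

theorem act_E (σ : Equiv.Perm ι) (j : Fin 2) (i : ι) : act σ (E j i) = E j (σ i) := by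
  apply co_ext
  intro j' i'
  rw [act_apply, E_apply, E_apply]
  by_cases h : j' = j
  · simp [h, Equiv.symm_apply_eq]
  · simp [h]

theorem act_mul (σ τ : Equiv.Perm ι) (v : V ι) : act (σ * τ) v = act σ (act τ v) := rfl

theorem act_one (v : V ι) : act 1 v = v := rfl

/-- The lattice: the differences of the values are Gaussian integers. -/
def Lam (ι : Type) [Fintype ι] : AddSubgroup (V ι) where
  carrier := {v | ∀ j i i', IsGauss (co v j i - co v j i')}
  zero_mem' := fun j i i' => by simpa using isGauss_zero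
  add_mem' := by
    intro v w hv hw j i i'
    have := (hv j i i').add (hw j i i')
    convert this using 1
    rw [map_add]
    simp only [Pi.add_apply]
    ring
  neg_mem' := by
    intro v hv j i i'
    have := (hv j i i').neg
    convert this using 1
    rw [map_neg]
    simp only [Pi.neg_apply]
    ring

theorem mem_Lam {v : V ι} : v ∈ Lam ι ↔
    ∀ j i i', IsGauss (co v j i - co v j i') := Iff.rfl

theorem act_Lam (σ : Equiv.Perm ι) {v : V ι} (hv : v ∈ Lam ι) : act σ v ∈ Lam ι :=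
  fun j i i' => hv j (σ.symm i) (σ.symm i')

theorem smul_E_mem {z : ℂ} (hz : IsGauss z) (j : Fin 2) (i : ι) : z • E j i ∈ Lam ι := by
  intro j' k l
  change IsGauss (z * co (E j i) j' k - z * co (E j i) j' l)
  rw [E_apply, E_apply]
  by_cases h : j' = j
  · by_cases hk : k = i
    · by_cases hl : l = i
      · simpa [h, hk, hl] using isGauss_zero
      · simp only [h, hk, hl, if_true, if_false]
        convert hz using 1
        ring
    · by_cases hl : l = i
      · simp only [h, hk, hl, if_true, if_false]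
        convert hz.neg using 1
        ring
      · simpa [h, hk, hl] using isGauss_zero
  · simpa [h] using isGauss_zero

/-- `γ` is the transformation `v ↦ σ v + b`, `b ∈ Λ`. -/
def IsOf (γ : V ι ≃ᵃ[ℂ] V ι) (σ : Equiv.Perm ι) : Prop := ∃ b ∈ Lam ι, ∀ v, γ v = act σ v + b

/-- The group `Γ`. -/
def Gam (G : Subgroup (Equiv.Perm ι)) : Subgroup (V ι ≃ᵃ[ℂ] V ι) where
  carrier := {γ | ∃ σ ∈ G, IsOf γ σ}
  mul_mem' := by
    rintro γ δ ⟨σ, hσ, b, hb, h1⟩ ⟨τ, hτ, c, hc, h2⟩
    refine ⟨σ * τ, G.mul_mem hσ hτ, act σ c + b, (Lam ι).add_mem (act_Lam σ hc) hb, fun v => ?_⟩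
    change γ (δ v) = _
    rw [h1, h2, act_mul, map_add, add_assoc]
  one_mem' := ⟨1, G.one_mem, 0, (Lam ι).zero_mem, fun v => by rw [act_one, add_zero]; rfl⟩
  inv_mem' := by
    rintro γ ⟨σ, hσ, b, hb, h1⟩
    refine ⟨σ⁻¹, G.inv_mem hσ, -act σ⁻¹ b, (Lam ι).neg_mem (act_Lam _ hb), fun v => ?_⟩
    have h3 : v = act σ (γ⁻¹ v) + b := by
      rw [← h1]
      exact (γ.apply_symm_apply v).symm
    have h4 : act σ⁻¹ v = γ⁻¹ v + act σ⁻¹ b := by
      conv_lhs => rw [h3]
      rw [map_add, ← act_mul, inv_mul_cancel, act_one]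
    rw [h4]
    abel

theorem IsOf.linear {γ : V ι ≃ᵃ[ℂ] V ι} {σ : Equiv.Perm ι} (h : IsOf γ σ) (w : V ι) :
    γ.linear w = act σ w := by
  obtain ⟨b, _, hγ⟩ := h
  have h1 := TQ.act γ w
  rw [hγ w, hγ 0, map_zero, zero_add] at h1
  exact (add_right_cancel h1).symm

/-- The linear transformation given by a permutation. -/
noncomputable def gam (σ : Equiv.Perm ι) : V ι ≃ᵃ[ℂ] V ι := (act σ).toAffineEquiv

theorem isOf_gam (σ : Equiv.Perm ι) : IsOf (gam σ) σ :=
  ⟨0, (Lam ι).zero_mem, fun v => by rw [add_zero]; rfl⟩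

variable {G : Subgroup (Equiv.Perm ι)}

theorem gam_mem {σ : Equiv.Perm ι} (h : σ ∈ G) : gam σ ∈ Gam G := ⟨σ, h, isOf_gam σ⟩

theorem gam_linear (σ : Equiv.Perm ι) (w : V ι) : (gam σ).linear w = act σ w :=
  (isOf_gam σ).linear w

theorem eq_one_of_act {σ : Equiv.Perm ι}
    (h : ∀ w : V ι, act σ w = w) : σ = 1 := by
  ext i
  by_contra hne
  have hne' : σ i ≠ i := hne
  have h1 := congrArg (fun v : V ι => co v 0 i) (h (E 0 i))
  simp only [act_E, E_apply, if_true, hne'.symm, if_false] at h1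
  exact zero_ne_one (α := ℂ) (by linear_combination h1)

theorem latt_eq (h3 : 3 ≤ Fintype.card ι) : latt (Gam G) = Lam ι := by
  ext b
  rw [mem_latt]
  constructor
  · rintro ⟨σ, hσ, c, hc, h⟩
    have h1 : σ = 1 := by
      apply eq_one_of_act
      intro w
      have h2 := h w
      have h3 := h 0
      change b + w = _ at h2
      change b + 0 = _ at h3
      rw [map_zero, zero_add, add_zero] at h3
      rw [h3, add_comm] at h2
      exact (add_right_cancel h2).symm
    subst h1
    have h3 := h 0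
    change b + 0 = _ at h3
    rw [map_zero, zero_add, add_zero] at h3
    rwa [h3]
  · intro hb
    refine ⟨1, G.one_mem, b, hb, fun v => ?_⟩
    rw [act_one, add_comm]
    rfl

theorem disc (h3 : 3 ≤ Fintype.card ι) : DiscreteTopology (latt (Gam G)) := by
  rw [latt_eq h3]
  refine discreteTopology_iff_isOpen_singleton_zero.mpr
    ⟨Metric.ball 0 (1 / 2), Metric.isOpen_ball, ?_⟩
  ext ⟨v, hv⟩
  simp only [Set.mem_preimage, mem_ball_zero_iff, Set.mem_singleton_iff]
  constructor
  · intro h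
    apply Subtype.ext
    apply Subtype.ext
    have hn : ∀ j i, ‖co v j i‖ < 1 / 2 := fun j i =>
      (norm_le_pi_norm _ i).trans_lt ((norm_le_pi_norm (co v) j).trans_lt h)
    have he : ∀ j i i', co v j i = co v j i' := by
      intro j i i'
      refine sub_eq_zero.1 (gauss_small (hv j i i') ((norm_sub_le _ _).trans_lt ?_))
      linarith [hn j i, hn j i']
    funext j i
    have h1 := co_sum v j
    rw [Finset.sum_congr rfl fun i' _ => he j i' i, Finset.sum_const, Finset.card_univ,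
      nsmul_eq_mul] at h1
    have hc : (Fintype.card ι : ℂ) ≠ 0 := by
      have : Fintype.card ι ≠ 0 := by omega
      exact_mod_cast this
    exact (mul_eq_zero.1 h1).resolve_left hc
  · intro h
    have h' : v = 0 := congrArg Subtype.val h
    rw [h', norm_zero]
    norm_num

theorem span_top (h3 : 3 ≤ Fintype.card ι) : Submodule.span ℝ (latt (Gam G) : Set (V ι)) = ⊤ := by
  rw [latt_eq h3, Submodule.eq_top_iff']
  intro v
  have h1 : v = ∑ j, ∑ i, ((co v j i).re • ((1 : ℂ) • E j i)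
      + (co v j i).im • (Complex.I • E j i)) := by
    conv_lhs => rw [expand v]
    refine Finset.sum_congr rfl fun j _ => Finset.sum_congr rfl fun i _ => ?_
    have hr : ∀ (r : ℝ) (x : V ι), r • x = (r : ℂ) • x := by
      intro r x
      apply Subtype.ext
      funext k l
      change r • co x k l = (r : ℂ) * co x k l
      exact Complex.real_smul
    rw [hr, hr, smul_smul, smul_smul, ← add_smul, mul_one, Complex.re_add_im]
  rw [h1]
  refine Submodule.sum_mem _ fun j _ => Submodule.sum_mem _ fun i _ => Submodule.add_mem _ ?_ ?_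
  · exact Submodule.smul_mem _ _ (Submodule.subset_span (smul_E_mem isGauss_one j i))
  · exact Submodule.smul_mem _ _ (Submodule.subset_span
      (smul_E_mem ⟨0, 1, by simp⟩ j i))

theorem torusQuotient (h3 : 3 ≤ Fintype.card ι) : IsTorusQuotient (Gam G) where
  discrete := disc h3
  span_top := span_top h3
  finite_linear := by
    have h : {A : V ι ≃ₗ[ℂ] V ι | ∃ γ ∈ Gam G, γ.linear = A} ⊆ Set.range act := by
      rintro _ ⟨γ, ⟨σ, _, hσ⟩, rfl⟩
      refine ⟨σ, ?_⟩
      apply LinearEquiv.ext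
      intro w
      exact (hσ.linear w).symm
    exact (Set.finite_range _).subset h

/-- Doubly transitive. -/
def DT (G : Subgroup (Equiv.Perm ι)) : Prop :=
  ∀ i j k l : ι, i ≠ j → k ≠ l → ∃ σ ∈ G, σ i = k ∧ σ j = l

theorem DT.tr (h3 : 3 ≤ Fintype.card ι) (h : DT G) (i k : ι) : ∃ σ ∈ G, σ i = k := by
  have hn : Nontrivial ι := Fintype.one_lt_card_iff_nontrivial.1 (by omega)
  obtain ⟨j, hj⟩ := exists_ne i
  obtain ⟨l, hl⟩ := exists_ne k
  obtain ⟨σ, hσ, h1, _⟩ := h i j k l hj.symm hl.symm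
  exact ⟨σ, hσ, h1⟩

theorem card_ne (h3 : 3 ≤ Fintype.card ι) : (Fintype.card ι : ℂ) ≠ 0 := by
  have : Fintype.card ι ≠ 0 := by omega
  exact_mod_cast this

theorem h01 (h3 : 3 ≤ Fintype.card ι) (hG : DT G) (ℓ : V ι →ₛₗ[starRingEnd ℂ] ℂ)
    (h : ∀ γ ∈ Gam G, ∀ w, ℓ (γ.linear w) = ℓ w) : ℓ = 0 := by
  have hE : ∀ j i, ℓ (E j i) = 0 := by
    intro j i
    have h1 : ∀ i', ℓ (E j i') = ℓ (E j i) := by
      intro i'
      obtain ⟨σ, hσ, rfl⟩ := hG.tr h3 i i'
      rw [← act_E, ← gam_linear]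
      exact h _ (gam_mem hσ) _
    have h2 : ℓ (∑ i', E j i') = 0 := by rw [E_sum, map_zero]
    rw [map_sum, Finset.sum_congr rfl fun i' _ => h1 i', Finset.sum_const, Finset.card_univ,
      nsmul_eq_mul] at h2
    exact (mul_eq_zero.1 h2).resolve_left (card_ne h3)
  apply LinearMap.ext
  intro v
  rw [expand v, map_sum]
  refine Finset.sum_eq_zero fun j _ => ?_
  rw [map_sum]
  refine Finset.sum_eq_zero fun i _ => ?_
  rw [LinearMap.map_smulₛₗ, hE, smul_zero]

theorem lin_zero (h3 : 3 ≤ Fintype.card ι) (hG : DT G) (ℓ : V ι →ₗ[ℂ] ℂ)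
    (h : ∀ σ ∈ G, ∀ w, ℓ (act σ w) = ℓ w) : ℓ = 0 := by
  have hE : ∀ j i, ℓ (E j i) = 0 := by
    intro j i
    have h1 : ∀ i', ℓ (E j i') = ℓ (E j i) := by
      intro i'
      obtain ⟨σ, hσ, rfl⟩ := hG.tr h3 i i'
      rw [← act_E]
      exact h _ hσ _
    have h2 : ℓ (∑ i', E j i') = 0 := by rw [E_sum, map_zero]
    rw [map_sum, Finset.sum_congr rfl fun i' _ => h1 i', Finset.sum_const, Finset.card_univ,
      nsmul_eq_mul] at h2
    exact (mul_eq_zero.1 h2).resolve_left (card_ne h3)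
  apply LinearMap.ext
  intro v
  rw [expand v, map_sum]
  refine Finset.sum_eq_zero fun j _ => ?_
  rw [map_sum]
  refine Finset.sum_eq_zero fun i _ => ?_
  rw [map_smul, hE, smul_zero]

theorem h10 (h3 : 3 ≤ Fintype.card ι) (hG : DT G) (ω : V ι → V ι [⋀^Fin 1]→L[ℂ] ℂ)
    (hω : IsForm (Gam G) 1 ω) : ω = 0 := by
  have hT := torusQuotient (G := G) h3
  let ℓ : V ι →ₗ[ℂ] ℂ :=
    { toFun := fun w => ω 0 ![w]
      map_add' := fun x y => by
        have h := (ω 0).map_update_add ![(0 : V ι)] 0 x y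
        have hu : ∀ z : V ι, Function.update ![(0 : V ι)] 0 z = ![z] := fun z => by
          funext i
          fin_cases i
          rfl
        rwa [hu, hu, hu] at h
      map_smul' := fun c x => by
        have h := (ω 0).map_update_smul ![(0 : V ι)] 0 c x
        have hu : ∀ z : V ι, Function.update ![(0 : V ι)] 0 z = ![z] := fun z => by
          funext i
          fin_cases i
          rfl
        rwa [hu, hu] at h }
  have h0 : ℓ = 0 := by
    apply lin_zero h3 hG
    intro σ hσ w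
    have h1 := TQ.form_inv hT hω (gam σ) (gam_mem hσ) ![w]
    have h2 : (fun i => (gam σ).linear (![w] i)) = ![act σ w] := by
      funext i
      rw [gam_linear]
      fin_cases i
      rfl
    rw [h2] at h1
    exact h1
  funext v
  rw [TQ.form_const hT hω v 0]
  ext w
  have h1 : w = ![w 0] := by
    funext i
    fin_cases i
    rfl
  rw [h1]
  exact LinearMap.congr_fun h0 (w 0)

/-- the symplectic form -/
noncomputable def sig0 : V ι [⋀^Fin 2]→ₗ[ℂ] ℂ :=
  ∑ i : ι, (Matrix.detRowAlternating : (Fin 2 → ℂ) [⋀^Fin 2]→ₗ[ℂ] ℂ).compLinearMap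
    { toFun := fun v : V ι => fun j => co v j i
      map_add' := fun _ _ => rfl
      map_smul' := fun _ _ => rfl }

theorem alt_sum (f : ι → V ι [⋀^Fin 2]→ₗ[ℂ] ℂ) (s : Finset ι) (w : Fin 2 → V ι) :
    (∑ i ∈ s, f i) w = ∑ i ∈ s, f i w := by
  induction s using Finset.induction_on with
  | empty => rw [Finset.sum_empty, Finset.sum_empty, AlternatingMap.zero_apply]
  | insert i s hi ih => rw [Finset.sum_insert hi, Finset.sum_insert hi, AlternatingMap.add_apply, ih]

theorem sig0_apply (w : Fin 2 → V ι) : sig0 w = ∑ i : ι,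
    (co (w 0) 0 i * co (w 1) 1 i
      - co (w 0) 1 i * co (w 1) 0 i) := by
  rw [sig0, alt_sum]
  exact Finset.sum_congr rfl fun i _ => Matrix.det_fin_two _

/-- The symplectic form. -/
noncomputable def sig : V ι [⋀^Fin 2]→L[ℂ] ℂ :=
  { sig0 with
    cont := by
      have : (fun w : Fin 2 → V ι => sig0 w) = fun w => ∑ i : ι,
          (co (w 0) 0 i * co (w 1) 1 i
          - co (w 0) 1 i * co (w 1) 0 i) := funext sig0_apply
      change Continuous (fun w : Fin 2 → V ι => sig0 w)
      rw [this]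
      have hc : ∀ (k j : Fin 2) (i : ι),
          Continuous fun w : Fin 2 → V ι => co (w k) j i := fun k j i =>
        (continuous_apply i).comp ((continuous_apply j).comp
          (continuous_subtype_val.comp (continuous_apply k)))
      exact continuous_finsetSum _ fun i _ =>
        ((hc 0 0 i).mul (hc 1 1 i)).sub ((hc 0 1 i).mul (hc 1 0 i)) }

theorem sig_apply (w : Fin 2 → V ι) : sig w = ∑ i : ι,
    (co (w 0) 0 i * co (w 1) 1 i
      - co (w 0) 1 i * co (w 1) 0 i) := sig0_apply w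

theorem sig_inv (σ : Equiv.Perm ι) (w : Fin 2 → V ι) :
    sig (fun i => act σ (w i)) = sig w := by
  rw [sig_apply, sig_apply]
  simp only [act_apply]
  exact Equiv.sum_comp σ.symm fun i => (co (w 0) 0 i * co (w 1) 1 i
      - co (w 0) 1 i * co (w 1) 0 i)

theorem sig_form : IsForm (Gam G) 2 (fun _ => sig) where
  holo := differentiable_const _
  inv := by
    rintro γ ⟨σ, hσ, h⟩ v w
    have h : (fun i => γ.linear (w i)) = fun i => act σ (w i) := by
      funext i
      exact h.linear _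
    change sig (fun i => γ.linear (w i)) = sig w
    rw [h, sig_inv]

theorem sum_E (f : ι → ℂ) (hf : ∑ i, f i = 0) (k : ι) :
    ∑ i, f i * ((if i = k then (1 : ℂ) else 0) - (Fintype.card ι : ℂ)⁻¹) = f k := by
  simp only [mul_sub, Finset.sum_sub_distrib, mul_ite, mul_one, mul_zero,
    Finset.sum_ite_eq', Finset.mem_univ, if_true, ← Finset.sum_mul, hf, zero_mul, sub_zero]

theorem sig_E1 (x : V ι) (k : ι) : sig ![x, E 1 k] = co x 0 k := by
  rw [sig_apply]
  simp only [Matrix.cons_val_zero, Matrix.cons_val_one, E_apply]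
  simp only [if_true, zero_ne_one, if_false, mul_zero, sub_zero]
  exact sum_E _ (co_sum x 0) k

theorem sig_E0 (x : V ι) (k : ι) : sig ![x, E 0 k] = -co x 1 k := by
  rw [sig_apply]
  simp only [Matrix.cons_val_zero, Matrix.cons_val_one, E_apply]
  simp only [if_true, one_ne_zero, if_false, mul_zero, zero_sub, Finset.sum_neg_distrib]
  rw [sum_E _ (co_sum x 1) k]

theorem sig_nondeg (x : V ι) (h : ∀ y, sig ![x, y] = 0) : x = 0 := by
  apply Subtype.ext
  funext j i
  fin_cases j
  · have := h (E 1 i)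
    rw [sig_E1] at this
    exact this
  · have := h (E 0 i)
    rw [sig_E0, neg_eq_zero] at this
    exact this

/-- Invariant alternating forms are proportional. -/
theorem bil_unique (h3 : 3 ≤ Fintype.card ι) (hG : DT G) (B B' : V ι →ₗ[ℂ] V ι →ₗ[ℂ] ℂ)
    (hI : ∀ σ ∈ G, ∀ x y, B (act σ x) (act σ y) = B x y)
    (hI' : ∀ σ ∈ G, ∀ x y, B' (act σ x) (act σ y) = B' x y)
    (hsw : ∀ x y, B x y = -B y x) (hsw' : ∀ x y, B' x y = -B' y x)
    (hne : ∀ i : ι, B' (E 0 i) (E 1 i) ≠ 0) : ∃ c : ℂ, ∀ x y, B x y = c * B' x y := by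
  have hn : Nontrivial ι := Fintype.one_lt_card_iff_nontrivial.1 (by omega)
  obtain ⟨i0, i1, h01⟩ := exists_pair_ne ι
  have hc := card_ne h3
  -- the values of an invariant form on the basic vectors
  have key : ∀ B : V ι →ₗ[ℂ] V ι →ₗ[ℂ] ℂ, (∀ σ ∈ G, ∀ x y, B (act σ x) (act σ y) = B x y) →
      ∀ (j : Fin 2) (i : ι) (j' : Fin 2) (i' : ι), B (E j i) (E j' i') =
        if i = i' then B (E j i0) (E j' i0)
        else -(((Fintype.card ι : ℂ) - 1)⁻¹ * B (E j i0) (E j' i0)) := by
    intro B hI j i j' i'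
    have hdiag : ∀ k, B (E j k) (E j' k) = B (E j i0) (E j' i0) := by
      intro k
      obtain ⟨σ, hσ, rfl⟩ := hG.tr h3 i0 k
      rw [← act_E, ← act_E, hI σ hσ]
    have hoff : ∀ k l, k ≠ l → B (E j k) (E j' l) = B (E j i0) (E j' i1) := by
      intro k l hkl
      obtain ⟨σ, hσ, rfl, rfl⟩ := hG i0 i1 k l h01 hkl
      rw [← act_E, ← act_E, hI σ hσ]
    have hsum : B (E j i0) (E j' i0)
        + ((Fintype.card ι : ℂ) - 1) * B (E j i0) (E j' i1) = 0 := by
      have h1 : B (E j i0) (∑ l, E j' l) = 0 := by rw [E_sum, map_zero]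
      rw [map_sum, ← Finset.add_sum_erase _ _ (Finset.mem_univ i0)] at h1
      rw [Finset.sum_congr rfl fun l hl => hoff i0 l (Finset.ne_of_mem_erase hl).symm,
        Finset.sum_const, Finset.card_erase_of_mem (Finset.mem_univ _), Finset.card_univ,
        nsmul_eq_mul, Nat.cast_sub (by omega), Nat.cast_one] at h1
      exact h1
    have hc1 : (Fintype.card ι : ℂ) - 1 ≠ 0 := by
      intro h
      have h2 : (Fintype.card ι : ℂ) = (1 : ℕ) := by
        rw [Nat.cast_one]; exact sub_eq_zero.1 h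
      have h4 : Fintype.card ι = 1 := by exact_mod_cast h2
      omega
    by_cases h : i = i'
    · rw [if_pos h, ← h, hdiag]
    · rw [if_neg h, hoff i i' h]
      field_simp
      linear_combination hsum
  have hz : ∀ z, B z z = 0 := fun z => self_eq_neg.1 (hsw z z)
  have hz' : ∀ z, B' z z = 0 := fun z => self_eq_neg.1 (hsw' z z)
  refine ⟨B (E 0 i0) (E 1 i0) / B' (E 0 i0) (E 1 i0), ?_⟩
  set c := B (E 0 i0) (E 1 i0) / B' (E 0 i0) (E 1 i0) with hcdef
  have h1 : B (E 0 i0) (E 1 i0) = c * B' (E 0 i0) (E 1 i0) := by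
    rw [hcdef, div_mul_cancel₀ _ (hne i0)]
  have hcc : ∀ j j', B (E j i0) (E j' i0) = c * B' (E j i0) (E j' i0) := by
    rw [Fin.forall_fin_two, Fin.forall_fin_two, Fin.forall_fin_two]
    refine ⟨⟨?_, h1⟩, ?_, ?_⟩
    · rw [hz, hz', mul_zero]
    · rw [hsw, h1, hsw' (E 1 i0), mul_neg]
    · rw [hz, hz', mul_zero]
  have hb : ∀ (j : Fin 2) (i : ι) (j' : Fin 2) (i' : ι), B (E j i) (E j' i') =
      c * B' (E j i) (E j' i') := by
    intro j i j' i'
    rw [key B hI, key B' hI', hcc]
    split_ifs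
    · rfl
    · ring
  have ex : ∀ (f : V ι →ₗ[ℂ] ℂ) (v : V ι),
      f v = ∑ j, ∑ i, co v j i * f (E j i) := by
    intro f v
    conv_lhs => rw [expand v]
    rw [map_sum]
    refine Finset.sum_congr rfl fun j _ => ?_
    rw [map_sum]
    exact Finset.sum_congr rfl fun i _ => by rw [map_smul, smul_eq_mul]
  have h2 : ∀ (j : Fin 2) (i : ι) (y : V ι), B (E j i) y = c * B' (E j i) y := by
    intro j i y
    rw [ex (B (E j i)) y, ex (B' (E j i)) y, Finset.mul_sum]
    refine Finset.sum_congr rfl fun j' _ => ?_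
    rw [Finset.mul_sum]
    refine Finset.sum_congr rfl fun i' _ => ?_
    rw [hb]
    ring
  intro x y
  have h4 := ex (B.flip y) x
  have h5 := ex (B'.flip y) x
  rw [LinearMap.flip_apply] at h4 h5
  rw [h4, h5, Finset.mul_sum]
  refine Finset.sum_congr rfl fun j _ => ?_
  rw [Finset.mul_sum]
  refine Finset.sum_congr rfl fun i _ => ?_
  rw [LinearMap.flip_apply, LinearMap.flip_apply, h2]
  ring

theorem bil_inv {B : V ι [⋀^Fin 2]→L[ℂ] ℂ} (hB : ∀ σ ∈ G, ∀ w : Fin 2 → V ι,
    B (fun i => act σ (w i)) = B w) : ∀ σ ∈ G, ∀ (x y : V ι),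
      TQ.bil B (act σ x) (act σ y) = TQ.bil B x y := by
  intro σ hσ x y
  rw [TQ.bil_apply, TQ.bil_apply, ← hB σ hσ ![x, y]]
  congr 1
  funext i
  fin_cases i <;> rfl

theorem unique (h3 : 3 ≤ Fintype.card ι) (hG : DT G) (ω : V ι → V ι [⋀^Fin 2]→L[ℂ] ℂ)
    (hω : IsForm (Gam G) 2 ω) :
    ∃ c : ℂ, ω = c • (fun _ => (sig : V ι [⋀^Fin 2]→L[ℂ] ℂ)) := by
  have hT := torusQuotient (G := G) h3
  have hωinv : ∀ σ ∈ G, ∀ w : Fin 2 → V ι, (ω 0) (fun i => act σ (w i)) = (ω 0) w := by
    intro σ hσ w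
    have h1 := TQ.form_inv hT hω (gam σ) (gam_mem hσ) w
    simp only [gam_linear] at h1
    exact h1
  have hne : ∀ i : ι, TQ.bil (sig : V ι [⋀^Fin 2]→L[ℂ] ℂ) (E 0 i) (E 1 i) ≠ 0 := by
    intro i h
    rw [TQ.bil_apply, sig_E1, E_apply, if_pos rfl, if_pos rfl] at h
    have h1 : (Fintype.card ι : ℂ)⁻¹ = 1 := (sub_eq_zero.1 h).symm
    rw [inv_eq_one] at h1
    have h4 : Fintype.card ι = 1 := by exact_mod_cast h1
    omega
  obtain ⟨c, hc⟩ := bil_unique h3 hG (TQ.bil (ω 0)) (TQ.bil sig) (bil_inv hωinv)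
    (bil_inv fun σ _ w => sig_inv σ w) (TQ.bil_swap (ω 0)) (TQ.bil_swap sig) hne
  refine ⟨c, ?_⟩
  funext v
  rw [TQ.form_const hT hω v 0]
  ext w
  have h := hc (w 0) (w 1)
  have hw : ![w 0, w 1] = w := by
    funext i
    fin_cases i <;> rfl
  rw [TQ.bil_apply, TQ.bil_apply, hw] at h
  exact h

theorem primitive (h3 : 3 ≤ Fintype.card ι) (hG : DT G) : IsPrimitiveSymplectic (Gam G) where
  torus := torusQuotient h3
  h01 := h01 h3 hG
  h10 := h10 h3 hG
  symp := ⟨fun _ => sig, sig_form, fun _ => sig_nondeg, unique h3 hG⟩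

end Q47.EB.Ex
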