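import Pool.Agent.Q47.EB.Ex1
import Pool.Agent.Y167.Bpf
import Mathlib.FieldTheory.Finite.GaloisField

/-!
# Nef line bundles on primitive symplectic torus quotients whose globally generated powers have
exponents divisible by a large prime number
-/

set_option autoImplicit false
set_option linter.unusedSectionVars false

namespace Q47.EB.Ex

open Pool.Agent.W594.SYZ2 Pool.Agent.TH735.AQ
open Q276.SYZ (IsGauss isGauss_zero isGauss_one gauss_small)

section Gauss

theorem gauss_sum {α : Type*} (s : Finset α) (f : α → ℂ) (h : ∀ a ∈ s, IsGauss (f a)) :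
    IsGauss (∑ a ∈ s, f a) := by
  classical
  induction s using Finset.induction_on with
  | empty => exact isGauss_zero
  | insert a s ha ih =>
    rw [Finset.sum_insert ha]
    exact (h a (Finset.mem_insert_self _ _)).add (ih fun b hb => h b (Finset.mem_insert_of_mem hb))

theorem gauss_mul {z w : ℂ} (hz : IsGauss z) (hw : IsGauss w) : IsGauss (z * w) := by
  obtain ⟨m, n, rfl⟩ := hz
  obtain ⟨m', n', rfl⟩ := hw
  refine ⟨m * m' - n * n', m * n' + n * m', ?_⟩
  push_cast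
  linear_combination (n * n' : ℂ) * Complex.I_mul_I

theorem gauss_conj {z : ℂ} (hz : IsGauss z) : IsGauss (starRingEnd ℂ z) := by
  obtain ⟨m, n, rfl⟩ := hz
  refine ⟨m, -n, ?_⟩
  simp

theorem gauss_re {z : ℂ} (hz : IsGauss z) : ∃ n : ℤ, z.re = n := by
  obtain ⟨m, n, rfl⟩ := hz
  exact ⟨m, by simp⟩

theorem gauss_im {z : ℂ} (hz : IsGauss z) : ∃ n : ℤ, z.im = n := by
  obtain ⟨m, n, rfl⟩ := hz
  exact ⟨n, by simp⟩

end Gauss

section General

variable {ι : Type} [Fintype ι] [DecidableEq ι] {G : Subgroup (Equiv.Perm ι)}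

theorem card_mul_gauss {b : V ι} (hb : b ∈ Lam ι) (j : Fin 2) (i : ι) :
    IsGauss ((Fintype.card ι : ℂ) * co b j i) := by
  have h1 : (Fintype.card ι : ℂ) * co b j i = ∑ i', (co b j i - co b j i') := by
    rw [Finset.sum_sub_distrib, co_sum, sub_zero, Finset.sum_const, Finset.card_univ,
      nsmul_eq_mul]
  rw [h1]
  exact gauss_sum _ _ fun i' _ => hb j i i'

/-- The hermitian forms. -/
noncomputable def Hs (J : Finset (Fin 2)) (v w : V ι) : ℂ :=
  ∑ j ∈ J, ∑ i, co v j i * starRingEnd ℂ (co w j i)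

theorem Hs_herm (J : Finset (Fin 2)) : IsHermitian (Hs J : V ι → V ι → ℂ) := by
  refine ⟨fun u v w => ?_, fun a v w => ?_, fun v w => ?_⟩
  · rw [Hs, Hs, Hs, ← Finset.sum_add_distrib, map_add]
    refine Finset.sum_congr rfl fun j _ => ?_
    rw [← Finset.sum_add_distrib]
    refine Finset.sum_congr rfl fun i _ => ?_
    simp only [Pi.add_apply]
    ring
  · rw [Hs, Hs, Finset.mul_sum, map_smul]
    refine Finset.sum_congr rfl fun j _ => ?_
    rw [Finset.mul_sum]
    refine Finset.sum_congr rfl fun i _ => ?_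
    simp only [Pi.smul_apply, smul_eq_mul]
    ring
  · rw [Hs, Hs, map_sum]
    refine Finset.sum_congr rfl fun j _ => ?_
    rw [map_sum]
    refine Finset.sum_congr rfl fun i _ => ?_
    rw [map_mul, Complex.conj_conj, mul_comm]

theorem Hs_diag (J : Finset (Fin 2)) (v : V ι) :
    (Hs J v v).re = ∑ j ∈ J, ∑ i, Complex.normSq (co v j i) := by
  rw [Hs, Complex.re_sum]
  refine Finset.sum_congr rfl fun j _ => ?_
  rw [Complex.re_sum]
  refine Finset.sum_congr rfl fun i _ => ?_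
  rw [Complex.mul_conj, Complex.ofReal_re]

theorem Hs_nef (J : Finset (Fin 2)) : IsNefForm (Hs J : V ι → V ι → ℂ) := by
  intro v
  rw [Hs_diag]
  exact Finset.sum_nonneg fun j _ => Finset.sum_nonneg fun i _ => Complex.normSq_nonneg _

theorem Hs_inv (J : Finset (Fin 2)) (γ : V ι ≃ᵃ[ℂ] V ι) (hγ : γ ∈ Gam G) (v w : V ι) :
    Hs J (γ.linear v) (γ.linear w) = Hs J v w := by
  obtain ⟨σ, _, h⟩ := hγ
  rw [h.linear, h.linear, Hs, Hs]
  exact Finset.sum_congr rfl fun j _ =>
    Equiv.sum_comp σ.symm fun i => co v j i * starRingEnd ℂ (co w j i)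

theorem Hs_int (J : Finset (Fin 2)) (h3 : 3 ≤ Fintype.card ι) : ∀ b ∈ latt (Gam G),
    ∀ c ∈ latt (Gam G), ∃ n : ℤ, ((Fintype.card ι : ℕ) : ℝ) * (Hs J b c).im = n := by
  rw [latt_eq h3]
  intro b hb c hc
  have hn : Nonempty ι := Fintype.card_pos_iff.1 (by omega)
  obtain ⟨i0⟩ := hn
  have h1 : ∀ j, ∑ i, co b j i * starRingEnd ℂ (co c j i)
      = ∑ i, co b j i * starRingEnd ℂ (co c j i - co c j i0) := by
    intro j
    simp only [map_sub, mul_sub, Finset.sum_sub_distrib, ← Finset.sum_mul, co_sum, zero_mul,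
      sub_zero]
  have h2 : IsGauss ((Fintype.card ι : ℂ) * Hs J b c) := by
    rw [Hs, Finset.mul_sum]
    refine gauss_sum _ _ fun j _ => ?_
    rw [h1, Finset.mul_sum]
    refine gauss_sum _ _ fun i _ => ?_
    rw [← mul_assoc]
    exact gauss_mul (card_mul_gauss hb j i) (gauss_conj (hc j i i0))
  obtain ⟨n, hn⟩ := gauss_im h2
  refine ⟨n, ?_⟩
  rw [← hn]
  have : ((Fintype.card ι : ℕ) : ℂ) = ((Fintype.card ι : ℝ) : ℂ) := by push_cast; rfl
  rw [this, Complex.im_ofReal_mul]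

/-- There is an ample line bundle. -/
theorem exists_ample (h3 : 3 ≤ Fintype.card ι) : ∃ (A : LineBundle (Gam G)) (HA : V ι → V ι → ℂ),
    IsChernForm A HA ∧ IsPositiveForm HA := by
  obtain ⟨m, hm, A, hc, -⟩ := Pool.Agent.Y167.exists_bpf (torusQuotient (G := G) h3)
    (Hs_herm (ι := ι) Finset.univ) (Hs_nef _) (fun γ hγ v w => Hs_inv _ γ hγ v w)
    (k := Fintype.card ι) (by omega) (Hs_int _ h3)
  refine ⟨A, _, hc, fun v hv => ?_⟩
  have hmr : ∀ z : ℂ, ((m : ℂ) * z).re = (m : ℝ) * z.re := fun z => by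
    have : ((m : ℕ) : ℂ) = ((m : ℝ) : ℂ) := by push_cast; rfl
    rw [this, Complex.re_ofReal_mul]
  rw [hmr]
  have hm' : (0 : ℝ) < m := by exact_mod_cast hm
  refine mul_pos hm' (lt_of_le_of_ne (Hs_nef _ v) fun h => hv ?_)
  rw [Hs_diag] at h
  apply co_ext
  intro j i
  have h1 := (Finset.sum_eq_zero_iff_of_nonneg fun j _ => Finset.sum_nonneg fun i _ =>
    Complex.normSq_nonneg _).1 h.symm j (Finset.mem_univ _)
  have h2 := (Finset.sum_eq_zero_iff_of_nonneg fun i _ => Complex.normSq_nonneg _).1 h1 i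
    (Finset.mem_univ _)
  rw [Complex.normSq_eq_zero] at h2
  rw [h2, map_zero]
  rfl

/-- The dimension. -/
theorem finrank_V [Nonempty ι] : Module.finrank ℂ (V ι) = 2 * (Fintype.card ι - 1) := by
  let f : (Fin 2 → ι → ℂ) →ₗ[ℂ] (Fin 2 → ℂ) :=
    { toFun := fun v j => ∑ i, v j i
      map_add' := fun v w => by
        funext j
        simp [Finset.sum_add_distrib]
      map_smul' := fun c v => by
        funext j
        simp [Finset.mul_sum] }
  have hker : LinearMap.ker f = W ι := by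
    ext v
    rw [LinearMap.mem_ker]
    constructor
    · intro h j
      exact congrFun h j
    · intro h
      funext j
      exact h j
  obtain ⟨i0⟩ := (inferInstance : Nonempty ι)
  have hsurj : LinearMap.range f = ⊤ := by
    rw [LinearMap.range_eq_top]
    intro w
    refine ⟨fun j i => if i = i0 then w j else 0, ?_⟩
    funext j
    change ∑ i, (if i = i0 then w j else 0) = w j
    simp
  have h1 := LinearMap.finrank_range_add_finrank_ker f
  rw [hsurj, hker, finrank_top] at h1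
  have h2 : Module.finrank ℂ (Fin 2 → ι → ℂ) = 2 * Fintype.card ι := by
    rw [Module.finrank_pi_fintype, Finset.sum_const, Finset.card_univ, Fintype.card_fin,
      Module.finrank_fintype_fun_eq_card, smul_eq_mul]
  rw [h2, Module.finrank_fin_fun] at h1
  change Module.finrank ℂ (W ι) = _
  have h3 : 0 < Fintype.card ι := Fintype.card_pos
  omega

/-- The character of a lattice vector in the kernel. -/
theorem chi_root {U : Type*} [NormedAddCommGroup U] [NormedSpace ℂ U] [FiniteDimensional ℂ U]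
    {Γ : Subgroup (U ≃ᵃ[ℂ] U)} {L : LineBundle Γ} {H : U → U → ℂ} {F : U → ℂ}
    (hH : IsHermitian H) (hF : TQ.IsPot L H F) {k : ℕ} (h : GG (L.pow k)) {b : U}
    (hb : b ∈ latt Γ) (hb' : Complex.I • b ∈ latt Γ) (hbK : b ∈ TQ.ker hH) :
    TQ.chi L F b ^ k = 1 := by
  obtain ⟨s, ⟨hs1, hs2⟩, hs0⟩ := h 0
  let u : U → ℂ := fun v => s v * Complex.exp (-(k * F v))
  have hu : Differentiable ℂ u := hs1.mul ((hF.1.const_mul (k : ℂ)).neg.cexp)
  have hut : ∀ (c : U), c ∈ latt Γ → c ∈ TQ.ker hH → ∀ v, u (c + v) = TQ.chi L F c ^ k * u v := by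
    intro c hc hcK v
    have h1 : s (c + v) = L.e (TQ.tr c hc) v ^ k * s v := hs2 (TQ.tr c hc) v
    have h2 := TQ.tw_tr_ker hH hF hc hcK v
    rw [← h2]
    simp only [u]
    rw [h1, TQ.tw, TQ.tr_apply, mul_pow, ← Complex.exp_nat_mul]
    have h3 : Complex.exp (-(k * F (c + v)))
        = Complex.exp (k * (F v - F (c + v))) * Complex.exp (-(k * F v)) := by
      rw [← Complex.exp_add]
      congr 1
      ring
    rw [h3]
    ring
  have hnorm : ∀ (c : U), c ∈ latt Γ → c ∈ TQ.ker hH → ∀ v, ‖u (c + v)‖ = ‖u v‖ := by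
    intro c hc hcK v
    rw [hut c hc hcK, norm_mul, norm_pow, chi_norm hH hF hc hcK, one_pow, one_mul]
  let g : ℂ → ℂ := fun z => u (z • b)
  have hg : Differentiable ℂ g := hu.comp (differentiable_id.smul_const b)
  have hbd : Bornology.IsBounded (Set.range g) := by
    have hK : IsCompact (Metric.closedBall (0 : ℂ) 2) := isCompact_closedBall _ _
    obtain ⟨R, hR⟩ := isBounded_iff_forall_norm_le.1 (hK.image hg.continuous).isBounded
    rw [isBounded_iff_forall_norm_le]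
    refine ⟨R, ?_⟩
    rintro _ ⟨z, rfl⟩
    set c : U := -(⌊z.re⌋ • b + ⌊z.im⌋ • (Complex.I • b)) with hc
    have hc1 : c ∈ latt Γ := (latt Γ).neg_mem ((latt Γ).add_mem ((latt Γ).zsmul_mem hb _)
      ((latt Γ).zsmul_mem hb' _))
    have hc2 : c ∈ TQ.ker hH := (TQ.ker hH).neg_mem ((TQ.ker hH).add_mem
      ((TQ.ker hH).toAddSubgroup.zsmul_mem hbK _)
      ((TQ.ker hH).toAddSubgroup.zsmul_mem ((TQ.ker hH).smul_mem _ hbK) _))
    have h1 : c + z • b = (z - ⌊z.re⌋ - ⌊z.im⌋ * Complex.I) • b := by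
      rw [hc, sub_smul, sub_smul, mul_smul, Int.cast_smul_eq_zsmul, Int.cast_smul_eq_zsmul]
      abel
    have h2 : ‖g z‖ = ‖g (z - ⌊z.re⌋ - ⌊z.im⌋ * Complex.I)‖ := by
      simp only [g]
      rw [← h1, hnorm c hc1 hc2]
    rw [h2]
    refine hR _ ⟨_, ?_, rfl⟩
    rw [mem_closedBall_zero_iff]
    have h3 : (z - ⌊z.re⌋ - ⌊z.im⌋ * Complex.I) = ((Int.fract z.re : ℝ) : ℂ)
        + ((Int.fract z.im : ℝ) : ℂ) * Complex.I := by
      apply Complex.ext
      · simp
      · simp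
    rw [h3]
    refine (norm_add_le _ _).trans ?_
    rw [norm_mul, Complex.norm_I, mul_one, Complex.norm_real, Complex.norm_real,
      Real.norm_eq_abs, Real.norm_eq_abs, abs_of_nonneg (Int.fract_nonneg _),
      abs_of_nonneg (Int.fract_nonneg _)]
    linarith [(Int.fract_lt_one z.re).le, (Int.fract_lt_one z.im).le]
  have h1 : g 1 = g 0 := hg.apply_eq_apply_of_bounded hbd 1 0
  have h2 : u b = u 0 := by
    simp only [g, one_smul, zero_smul] at h1
    exact h1
  have h3 := hut b hb hbK 0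
  rw [add_zero, h2] at h3
  have h4 : u 0 ≠ 0 := mul_ne_zero hs0 (Complex.exp_ne_zero _)
  exact (mul_right_cancel₀ h4 ((one_mul _).trans h3)).symm

end General

section Field

variable {F : Type} [Field F] [Fintype F] [DecidableEq F]

/-- The group of the affine transformations of the line over `F`. -/
def AGL (F : Type) [Field F] : Subgroup (Equiv.Perm F) where
  carrier := {σ | ∃ u a : F, u ≠ 0 ∧ ∀ x, σ x = u * x + a}
  mul_mem' := by
    rintro σ τ ⟨u, a, hu, h⟩ ⟨u', a', hu', h'⟩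
    refine ⟨u * u', u * a' + a, mul_ne_zero hu hu', fun x => ?_⟩
    rw [Equiv.Perm.mul_apply, h, h']
    ring
  one_mem' := ⟨1, 0, one_ne_zero, fun x => by simp⟩
  inv_mem' := by
    rintro σ ⟨u, a, hu, h⟩
    refine ⟨u⁻¹, -(u⁻¹ * a), inv_ne_zero hu, fun x => ?_⟩
    rw [Equiv.Perm.inv_eq_iff_eq, h]
    field_simp
    ring

theorem dt_AGL : DT (AGL F) := by
  intro i j k l hij hkl
  have h1 : i - j ≠ 0 := sub_ne_zero.2 hij
  have h2 : k - l ≠ 0 := sub_ne_zero.2 hkl
  have hu : (k - l) / (i - j) ≠ 0 := div_ne_zero h2 h1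
  let σ : Equiv.Perm F :=
    { toFun := fun x => (k - l) / (i - j) * x + (k - (k - l) / (i - j) * i)
      invFun := fun x => ((k - l) / (i - j))⁻¹ * (x - (k - (k - l) / (i - j) * i))
      left_inv := fun x => by
        field_simp
        ring
      right_inv := fun x => by
        field_simp
        ring }
  refine ⟨σ, ⟨_, _, hu, fun x => rfl⟩, ?_, ?_⟩
  · change (k - l) / (i - j) * i + (k - (k - l) / (i - j) * i) = k
    ring
  · change (k - l) / (i - j) * j + (k - (k - l) / (i - j) * i) = l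
    field_simp
    ring

variable {p : ℕ}

/-- Elements with fixed points. -/
theorem fix_int [CharP F p] {γ : V F ≃ᵃ[ℂ] V F} (hγ : γ ∈ Gam (AGL F)) {v : V F} (hv : γ v = v) :
    ∃ n : ℤ, (p : ℝ) * (co (γ 0) 0 0).re = n := by
  obtain ⟨σ, ⟨u, a, hu, hσ⟩, b, hb, h⟩ := hγ
  have h0 : γ 0 = b := by rw [h, map_zero, zero_add]
  rw [h0]
  have h1 : ∀ x, co b 0 x = co v 0 x - co v 0 (σ.symm x) := by
    intro x
    have h2 := h v
    rw [hv] at h2
    have h3 := congrFun (congrFun (congrArg co h2) 0) x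
    rw [map_add, Pi.add_apply, Pi.add_apply, act_apply] at h3
    linear_combination -h3
  by_cases hu1 : u = 1
  · subst hu1
    have hs : ∀ x, σ.symm x = x - a := by
      intro x
      rw [Equiv.symm_apply_eq, hσ]
      ring
    have h2 : ∑ k ∈ Finset.range p, co b 0 ((k : F) * a) = 0 := by
      have h3 : ∀ k ∈ Finset.range p, co b 0 ((k : F) * a)
          = (fun k : ℕ => co v 0 ((k : F) * a - a)) (k + 1)
            - (fun k : ℕ => co v 0 ((k : F) * a - a)) k := by
        intro k _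
        have h4 : ((k + 1 : ℕ) : F) * a - a = (k : F) * a := by
          push_cast
          ring
        simp only [h4]
        rw [h1, hs]
      rw [Finset.sum_congr rfl h3]
      refine (Finset.sum_range_sub (fun k : ℕ => co v 0 ((k : F) * a - a)) p).trans ?_
      simp
    have h5 : IsGauss ((p : ℂ) * co b 0 0) := by
      have h6 : (p : ℂ) * co b 0 0
          = ∑ k ∈ Finset.range p, (co b 0 0 - co b 0 ((k : F) * a)) := by
        rw [Finset.sum_sub_distrib, h2, sub_zero, Finset.sum_const, Finset.card_range,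
          nsmul_eq_mul]
      rw [h6]
      exact gauss_sum _ _ fun k _ => hb 0 _ _
    obtain ⟨n, hn⟩ := gauss_re h5
    refine ⟨n, ?_⟩
    rw [← hn]
    have : ((p : ℕ) : ℂ) = ((p : ℝ) : ℂ) := by push_cast; rfl
    rw [this, Complex.re_ofReal_mul]
  · have hu' : 1 - u ≠ 0 := sub_ne_zero.2 (Ne.symm hu1)
    have hx : σ.symm (a / (1 - u)) = a / (1 - u) := by
      rw [Equiv.symm_apply_eq, hσ]
      field_simp
      ring
    have h2 : co b 0 (a / (1 - u)) = 0 := by rw [h1, hx, sub_self]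
    obtain ⟨n, hn⟩ := gauss_re (hb 0 0 (a / (1 - u)))
    rw [h2, sub_zero] at hn
    exact ⟨p * n, by rw [hn]; push_cast; ring⟩

/-- The character. -/
noncomputable def ch (p : ℕ) (γ : V F ≃ᵃ[ℂ] V F) : ℂ :=
  Complex.exp (((p : ℝ) * (co (γ 0) 0 0).re : ℝ) * (2 * Real.pi * Complex.I))

theorem ch_norm (γ : V F ≃ᵃ[ℂ] V F) : ‖ch p γ‖ = 1 := by
  have h1 : (((p : ℝ) * (co (γ 0) 0 0).re : ℝ) : ℂ) * (2 * Real.pi * Complex.I)
      = (((p : ℝ) * (co (γ 0) 0 0).re * (2 * Real.pi) : ℝ) : ℂ) * Complex.I := by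
    push_cast
    ring
  rw [ch, h1, Complex.norm_exp_ofReal_mul_I]

theorem ch_mul {γ δ : V F ≃ᵃ[ℂ] V F} (hγ : γ ∈ Gam (AGL F)) (hδ : δ ∈ Gam (AGL F)) :
    ch p (γ * δ) = ch p γ * ch p δ := by
  obtain ⟨σ, _, b, hb, h⟩ := hγ
  obtain ⟨τ, _, c, hc, h'⟩ := hδ
  have h0 : γ 0 = b := by rw [h, map_zero, zero_add]
  have h0' : δ 0 = c := by rw [h', map_zero, zero_add]
  have h1 : (γ * δ) 0 = act σ c + b := by
    change γ (δ 0) = _
    rw [h0', h]
  obtain ⟨n, hn⟩ := gauss_re (hc 0 (σ.symm 0) 0)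
  rw [Complex.sub_re] at hn
  rw [ch, ch, ch, h0, h0', h1, map_add, Pi.add_apply, Pi.add_apply, act_apply, Complex.add_re,
    ← Complex.exp_add, Complex.exp_eq_exp_iff_exists_int]
  refine ⟨p * n, ?_⟩
  have h2 : (co c 0 (σ.symm 0)).re = (co c 0 0).re + n := by linarith
  rw [h2]
  push_cast
  ring

/-- The torsion line bundle. -/
noncomputable def Lch (F : Type) [Field F] [Fintype F] [DecidableEq F] (p : ℕ) [CharP F p] :
    LineBundle (Gam (AGL F)) where
  e := fun γ _ => ch p γ.1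
  holo := fun _ => differentiable_const _
  ne_zero := fun γ _ => Complex.exp_ne_zero _
  mul := fun γ δ _ => ch_mul γ.2 δ.2
  stab := fun γ v h => by
    obtain ⟨n, hn⟩ := fix_int (p := p) γ.2 h
    rw [ch, hn]
    exact_mod_cast Complex.exp_int_mul_two_pi_mul_I n

/-- The main example. -/
theorem example_field [CharP F p] (hp : p.Prime) (hcard : Fintype.card F = p ^ 2) (h3 : 3 ≤ p ^ 2) :
    IsPrimitiveSymplectic (Gam (AGL F)) ∧ ∃ (L : LineBundle (Gam (AGL F))) (H : V F → V F → ℂ),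
      IsChernForm L H ∧ IsNefForm H ∧ IsDegenerateForm H ∧ (∃ v w, H v w ≠ 0) ∧
      ∀ k : ℕ, GG (L.pow k) → p ∣ k := by
  have h3' : 3 ≤ Fintype.card F := by rwa [hcard]
  have hP := primitive (ι := F) h3' (dt_AGL (F := F))
  refine ⟨hP, ?_⟩
  obtain ⟨m, hm, L0, ⟨hH, Φ, hΦ, hΦe⟩, hs⟩ := Pool.Agent.Y167.exists_bpf hP.torus
    (Hs_herm (ι := F) {1}) (Hs_nef _) (fun γ hγ v w => Hs_inv _ γ hγ v w) (k := Fintype.card F)
    (by omega) (Hs_int _ h3')
  have hm0 : (m : ℂ) ≠ 0 := by exact_mod_cast hm.ne'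
  have hmr : ∀ z : ℂ, ((m : ℂ) * z).re = (m : ℝ) * z.re := fun z => by
    have : ((m : ℕ) : ℂ) = ((m : ℝ) : ℂ) := by push_cast; rfl
    rw [this, Complex.re_ofReal_mul]
  have hF0 : TQ.IsPot L0 (fun v w => (m : ℂ) * Hs {1} v w) Φ := ⟨hΦ, hΦe⟩
  let L := tensor L0 (Lch F p)
  have hLe : ∀ (γ : Gam (AGL F)) v, L.e γ v = L0.e γ v * ch p γ.1 := fun _ _ => rfl
  have hF : TQ.IsPot L (fun v w => (m : ℂ) * Hs {1} v w) Φ := by
    refine ⟨hΦ, fun γ v => ?_⟩
    rw [hLe, norm_mul, ch_norm, mul_one]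
    exact hΦe γ v
  have hker : ∀ i, E 0 i ∈ TQ.ker hH := by
    intro i w
    change (m : ℂ) * Hs {1} _ _ = 0
    have : Hs {1} (E 0 i) w = 0 := by
      rw [Hs, Finset.sum_singleton]
      refine Finset.sum_eq_zero fun x _ => ?_
      rw [E_apply, if_neg one_ne_zero, zero_mul]
    rw [this, mul_zero]
  refine ⟨L, fun v w => (m : ℂ) * Hs {1} v w, ⟨hH, Φ, hF⟩, ?_, ⟨E 0 0, ?_, hker 0⟩,
    ⟨E 1 0, E 1 0, ?_⟩, ?_⟩
  · intro v
    rw [hmr]
    exact mul_nonneg (Nat.cast_nonneg _) (Hs_nef _ v)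
  · intro h
    have h1 := congrFun (congrFun (congrArg co h) 0) 0
    rw [map_zero, E_apply, if_pos rfl, if_pos rfl] at h1
    have h2 : (Fintype.card F : ℂ)⁻¹ = 1 := (sub_eq_zero.1 h1).symm
    rw [inv_eq_one] at h2
    have h4 : Fintype.card F = 1 := by exact_mod_cast h2
    omega
  · refine mul_ne_zero hm0 fun h => ?_
    have h1 := congrArg Complex.re h
    rw [Hs_diag, Complex.zero_re, Finset.sum_singleton] at h1
    have h2 := (Finset.sum_eq_zero_iff_of_nonneg fun i _ => Complex.normSq_nonneg _).1 h1 0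
      (Finset.mem_univ _)
    rw [Complex.normSq_eq_zero, E_apply, if_pos rfl, if_pos rfl] at h2
    have h2' : (Fintype.card F : ℂ)⁻¹ = 1 := (sub_eq_zero.1 h2).symm
    rw [inv_eq_one] at h2'
    have h4 : Fintype.card F = 1 := by exact_mod_cast h2'
    omega
  · intro k hk
    have hb1 : E 0 0 ∈ latt (Gam (AGL F)) := by
      rw [latt_eq h3']
      have := smul_E_mem (ι := F) isGauss_one 0 0
      rwa [one_smul] at this
    have hb2 : Complex.I • E 0 0 ∈ latt (Gam (AGL F)) := by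
      rw [latt_eq h3']
      exact smul_E_mem ⟨0, 1, by simp⟩ 0 0
    have h0 : GG (L0.pow 1) := by
      intro v
      obtain ⟨s, ⟨h1, h2⟩, h3⟩ := hs v
      refine ⟨s, ⟨h1, fun γ w => ?_⟩, h3⟩
      change _ = L0.e γ w ^ 1 * _
      rw [pow_one]
      exact h2 γ w
    have e1 := chi_root hH hF0 h0 hb1 hb2 (hker 0)
    have e2 := chi_root hH hF hk hb1 hb2 (hker 0)
    rw [pow_one] at e1
    have e3 : TQ.chi L Φ (E 0 0) = TQ.chi L0 Φ (E 0 0) * ch p (TQ.tr (E 0 0) hb1).1 := by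
      rw [TQ.chi_eq hb1, TQ.chi_eq hb1, TQ.tw, TQ.tw, hLe]
      ring
    rw [e3, e1, one_mul] at e2
    have e4 : (TQ.tr (E 0 0) hb1).1 0 = E 0 (0 : F) := by
      rw [TQ.tr_apply, add_zero]
    have hp0 : (p : ℂ) ≠ 0 := by exact_mod_cast hp.ne_zero
    rw [ch, e4, E_apply, if_pos rfl, if_pos rfl, ← Complex.exp_nat_mul,
      Complex.exp_eq_one_iff] at e2
    obtain ⟨n, hn⟩ := e2
    have h5 : ((1 : ℂ) - (Fintype.card F : ℂ)⁻¹).re = 1 - ((p : ℝ) ^ 2)⁻¹ := by
      rw [hcard]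
      have : (1 : ℂ) - ((p ^ 2 : ℕ) : ℂ)⁻¹ = ((1 - ((p : ℝ) ^ 2)⁻¹ : ℝ) : ℂ) := by push_cast; rfl
      rw [this, Complex.ofReal_re]
    rw [h5] at hn
    have hpi : (2 * Real.pi * Complex.I : ℂ) ≠ 0 := Complex.two_pi_I_ne_zero
    have h6 : (k : ℂ) * ((p : ℝ) * (1 - ((p : ℝ) ^ 2)⁻¹) : ℝ) = n := by
      apply mul_right_cancel₀ hpi
      rw [← hn]
      ring
    have h7 : (k : ℂ) * ((p : ℂ) ^ 2 - 1) = n * p := by
      push_cast at h6
      field_simp at h6
      linear_combination h6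
    have h8 : (k : ℤ) = p * (k * p - n) := by
      have : (k : ℂ) = p * (k * p - n) := by linear_combination -h7
      exact_mod_cast this
    exact Int.natCast_dvd_natCast.1 ⟨_, h8⟩

end Field

/-- Examples with arbitrarily large prime numbers. -/
theorem exists_example (p : ℕ) (hp : p.Prime) :
    ∃ (V : Type) (_ : NormedAddCommGroup V) (_ : NormedSpace ℂ V) (_ : FiniteDimensional ℂ V)
      (Γ : Subgroup (V ≃ᵃ[ℂ] V)) (L : LineBundle Γ) (H : V → V → ℂ),
      Module.finrank ℂ V = 2 * (p ^ 2 - 1) ∧ IsPrimitiveSymplectic Γ ∧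
      (∃ (A : LineBundle Γ) (HA : V → V → ℂ), IsChernForm A HA ∧ IsPositiveForm HA) ∧
      IsChernForm L H ∧ IsNefForm H ∧ IsDegenerateForm H ∧ (∃ v w, H v w ≠ 0) ∧
      ∀ k : ℕ, GG (L.pow k) → p ∣ k := by
  classical
  have : Fact p.Prime := ⟨hp⟩
  have : Fintype (GaloisField p 2) := Fintype.ofFinite _
  have hcard : Fintype.card (GaloisField p 2) = p ^ 2 := by
    rw [← Nat.card_eq_fintype_card]
    exact GaloisField.card p 2 two_ne_zero
  have h3 : 3 ≤ p ^ 2 := by
    have := hp.two_le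
    nlinarith
  obtain ⟨h4, L, H, h5, h6, h7, h8, h9⟩ := example_field (F := GaloisField p 2) hp hcard h3
  exact ⟨V (GaloisField p 2), inferInstance, inferInstance, inferInstance, _, L, H,
    by rw [finrank_V, hcard], h4, exists_ample (by rwa [hcard]), h5, h6, h7, h8, h9⟩

end Q47.EB.Ex
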