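import Pool.Agent.Q47.EB.Pairs
import Pool.Agent.Q47.EB.Ex2
import Mathlib.Analysis.SpecialFunctions.Complex.CircleAddChar

/-!
# Pairs whose globally generated log pluricanonical bundles have exponents divisible by a prime
-/

set_option autoImplicit false

namespace Q47.EB.Ex3

open Pool.Agent.W594.SYZ2 Pool.Agent.TH735.AQ Pool.Agent.Y167
open Q276.SYZ (IsGauss isGauss_zero isGauss_one gauss_small)
open Q47.EB.Ex (gauss_mul gauss_conj gauss_re gauss_im gauss_sum)

/-- The hermitian form `2 z \bar w` on the complex line. -/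
noncomputable def H1 (z w : ℂ) : ℂ := 2 * (z * starRingEnd ℂ w)

theorem H1_herm : IsHermitian H1 := by
  refine ⟨fun u v w => ?_, fun a v w => ?_, fun v w => ?_⟩
  · simp only [H1]; ring
  · simp only [H1, smul_eq_mul]; ring
  · simp only [H1, map_mul, Complex.conj_conj, map_ofNat]; ring

theorem H1_re (z : ℂ) : (H1 z z).re = 2 * Complex.normSq z := by
  rw [H1, Complex.mul_conj]
  simp

/-- The Gaussian integers. -/
def S : AddSubgroup ℂ where
  carrier := {z | IsGauss z}
  zero_mem' := isGauss_zero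
  add_mem' := fun h h' => h.add h'
  neg_mem' := fun h => h.neg

/-- The translations by Gaussian integers. -/
def G1 : Subgroup (ℂ ≃ᵃ[ℂ] ℂ) where
  carrier := {γ | ∃ b, IsGauss b ∧ ∀ v, γ v = b + v}
  mul_mem' := by
    rintro γ δ ⟨b, hb, h⟩ ⟨c, hc, h'⟩
    refine ⟨b + c, hb.add hc, fun v => ?_⟩
    change γ (δ v) = _
    rw [h, h']
    ring
  one_mem' := ⟨0, isGauss_zero, fun v => by rw [zero_add]; rfl⟩
  inv_mem' := by
    rintro γ ⟨b, hb, h⟩
    refine ⟨-b, hb.neg, fun v => ?_⟩
    change γ.symm v = _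
    rw [AffineEquiv.symm_apply_eq, h]
    ring

theorem latt_G1 : latt G1 = S := by
  ext b
  rw [mem_latt]
  constructor
  · rintro ⟨c, hc, h⟩
    have h0 := h 0
    change b + 0 = c + 0 at h0
    rw [add_zero, add_zero] at h0
    change IsGauss b
    rwa [h0]
  · intro hb
    exact ⟨b, hb, fun v => rfl⟩

theorem tq_G1 : IsTorusQuotient G1 where
  discrete := by
    rw [latt_G1]
    refine discreteTopology_iff_isOpen_singleton_zero.mpr ⟨Metric.ball 0 1, Metric.isOpen_ball, ?_⟩
    ext ⟨v, hv⟩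
    simp only [Set.mem_preimage, mem_ball_zero_iff, Set.mem_singleton_iff]
    constructor
    · intro h
      exact Subtype.ext (gauss_small hv h)
    · intro h
      have h' : v = 0 := congrArg Subtype.val h
      rw [h']
      simp
  span_top := by
    rw [latt_G1, Submodule.eq_top_iff']
    intro v
    have h1 : v = v.re • (1 : ℂ) + v.im • Complex.I := by
      rw [Complex.real_smul, Complex.real_smul, mul_one, Complex.re_add_im]
    rw [h1]
    exact Submodule.add_mem _
      (Submodule.smul_mem _ _ (Submodule.subset_span isGauss_one))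
      (Submodule.smul_mem _ _ (Submodule.subset_span (⟨0, 1, by simp⟩ : IsGauss Complex.I)))
  finite_linear := by
    refine (Set.finite_singleton (LinearEquiv.refl ℂ ℂ)).subset ?_
    rintro _ ⟨γ, ⟨b, hb, h⟩, rfl⟩
    rw [Set.mem_singleton_iff]
    apply LinearEquiv.ext
    intro w
    have h1 := TQ.act γ w
    rw [h w, h 0, add_zero, add_comm] at h1
    exact (add_right_cancel h1).symm

/-- The theta function. -/
noncomputable def th : ℂ → ℂ := theta H1 S

theorem th_good : Good H1 S := by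
  refine ⟨H1_herm, ?_, 2, two_pos, fun w _ => ?_⟩
  · rw [← latt_G1]
    exact tq_G1.discrete
  · rw [H1_re, Complex.normSq_eq_norm_sq]

theorem th_holo : Differentiable ℂ th := th_good.holo

theorem th_add (z : ℂ) {b : ℂ} (hb : IsGauss b) :
    th (z + b) = Complex.exp (Real.pi * H1 z b + Real.pi / 2 * H1 b b) * th z := by
  refine theta_add (S := S) H1_herm (fun v hv w hw => ?_) z hb
  obtain ⟨n, hn⟩ := gauss_im (gauss_mul hv (gauss_conj hw))
  exact ⟨n, by rw [H1, ← hn]; simp⟩

/-- The theta function has a zero. -/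
theorem th_zero : ∃ z, th z = 0 := by
  by_contra hcon
  push Not at hcon
  have hpot : IsCobPot G1 th H1 (fun _ => 0) := by
    rintro ⟨γ, b, hb, h⟩ v
    change ‖th (γ v)‖ ^ 2 = Real.exp (Real.pi * (H1 (γ v) (γ v)).re
      + 2 * (0 : ℂ).re - (Real.pi * (H1 v v).re + 2 * (0 : ℂ).re)) * ‖th v‖ ^ 2
    rw [h v, add_comm b v, th_add v hb, norm_mul, mul_pow, Complex.norm_exp, ← Real.exp_nat_mul,
      TQ.h_diag_add H1_herm]
    congr 2
    have h1 : (Real.pi * H1 v b + Real.pi / 2 * H1 b b : ℂ).re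
        = Real.pi * (H1 v b).re + Real.pi / 2 * (H1 b b).re := by
      have : (Real.pi / 2 : ℂ) = ((Real.pi / 2 : ℝ) : ℂ) := by push_cast; rfl
      rw [Complex.add_re, this, Complex.re_ofReal_mul, Complex.re_ofReal_mul]
    rw [h1]
    push_cast
    simp only [Complex.zero_re]
    ring
  have h1 := diag_nonpos tq_G1 th_holo hcon H1_herm (differentiable_const _) hpot 1
  rw [H1_re] at h1
  simp at h1
  linarith

/-- The automorphy factor of level two. -/
noncomputable def ep (b z : ℂ) : ℂ := Complex.exp (2 * Real.pi * H1 z b + Real.pi * H1 b b)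

theorem ep_add {b b' : ℂ} (hb : IsGauss b) (hb' : IsGauss b') (z : ℂ) :
    ep (b' + b) z = ep b (z + b') * ep b' z := by
  obtain ⟨n, hn⟩ := gauss_im (gauss_mul hb (gauss_conj hb'))
  rw [ep, ep, ep, ← Complex.exp_add, Complex.exp_eq_exp_iff_exists_int]
  refine ⟨2 * n, ?_⟩
  have h1 : b * starRingEnd ℂ b' - b' * starRingEnd ℂ b = 2 * (n : ℂ) * Complex.I := by
    have h2 : b' * starRingEnd ℂ b = starRingEnd ℂ (b * starRingEnd ℂ b') := by
      rw [map_mul, Complex.conj_conj, mul_comm]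
    rw [h2]
    have h3 : ((n : ℤ) : ℂ) = (((b * starRingEnd ℂ b').im : ℝ) : ℂ) := by rw [hn]; push_cast; rfl
    rw [h3]
    apply Complex.ext
    · simp
    · simp
      ring
  simp only [H1, map_add]
  push_cast
  linear_combination (2 * Real.pi : ℂ) * h1

/-- Two independent functions with the same factor. -/
theorem exists_gh : ∃ (g h : ℂ → ℂ) (z1 z2 : ℂ), Differentiable ℂ g ∧ Differentiable ℂ h ∧
    (∀ b z, IsGauss b → g (z + b) = ep b z * g z) ∧ (∀ b z, IsGauss b → h (z + b) = ep b z * h z) ∧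
    g z1 = 0 ∧ h z1 ≠ 0 ∧ g z2 ≠ 0 := by
  obtain ⟨z1, hz1⟩ := th_zero
  have h0 : th 0 ≠ 0 := th_good.zero_ne
  have key : ∀ a b z, IsGauss b → th (z + b + a) * th (z + b - a)
      = ep b z * (th (z + a) * th (z - a)) := by
    intro a b z hb
    have e1 : z + b + a = (z + a) + b := by ring
    have e2 : z + b - a = (z - a) + b := by ring
    rw [e1, e2, th_add _ hb, th_add _ hb, mul_mul_mul_comm, ← Complex.exp_add, ep]
    congr 2
    simp only [H1]
    ring
  have e1 : Differentiable ℂ fun a : ℂ => th (z1 + a) :=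
    th_holo.comp (differentiable_id.const_add z1)
  have e2 : Differentiable ℂ fun a : ℂ => th (z1 - a) :=
    th_holo.comp (differentiable_id.const_sub z1)
  obtain ⟨a, h1, h2⟩ := exists_common e1 e2 ⟨-z1, by rwa [add_neg_cancel]⟩
    ⟨z1, by rwa [sub_self]⟩
  refine ⟨fun z => th (z + 0) * th (z - 0), fun z => th (z + a) * th (z - a), z1, 0, ?_, ?_,
    fun b z hb => key 0 b z hb, fun b z hb => key a b z hb, ?_, mul_ne_zero h1 h2, ?_⟩
  · exact (th_holo.comp (differentiable_id.add_const 0)).mul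
      (th_holo.comp (differentiable_id.sub_const 0))
  · exact (th_holo.comp (differentiable_id.add_const a)).mul
      (th_holo.comp (differentiable_id.sub_const a))
  · simp [hz1]
  · simpa using h0

section Main

variable (p : ℕ) [Fact p.Prime]

/-- The vector space. -/
abbrev V : Type := ℂ × (ZMod p → ℂ)

instance : NeZero p := ⟨(Fact.out : p.Prime).ne_zero⟩

variable {p}

/-- The linear part. -/
noncomputable def A (k : ℤ) : V p →ₗ[ℂ] V p where
  toFun v := (v.1, fun i => v.2 (i - k))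
  map_add' _ _ := rfl
  map_smul' _ _ := rfl

theorem A_add (k l : ℤ) (v : V p) : A (k + l) v = A k (A l v) := by
  refine Prod.ext rfl (funext fun i => ?_)
  change v.2 (i - ((k + l : ℤ) : ZMod p)) = v.2 (i - (k : ZMod p) - (l : ZMod p))
  congr 1
  push_cast
  ring

theorem A_zero (v : V p) : A 0 v = v := by
  refine Prod.ext rfl (funext fun i => ?_)
  change v.2 (i - ((0 : ℤ) : ZMod p)) = v.2 i
  simp

/-- The group. -/
def Gam (p : ℕ) [Fact p.Prime] : Subgroup (V p ≃ᵃ[ℂ] V p) where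
  carrier := {γ | ∃ (k : ℤ) (a : ℂ) (b : ZMod p → ℂ), IsGauss a ∧ (∀ i, IsGauss (b i)) ∧
    ∀ v, γ v = A k v + ((k : ℂ) / p + a, b)}
  mul_mem' := by
    rintro γ δ ⟨k, a, b, ha, hb, h⟩ ⟨l, a', b', ha', hb', h'⟩
    refine ⟨k + l, a + a', fun i => b' (i - k) + b i, ha.add ha', fun i => (hb' _).add (hb i),
      fun v => ?_⟩
    change γ (δ v) = _
    rw [h, h', map_add, ← A_add]
    refine Prod.ext ?_ (funext fun i => ?_)
    · change v.1 + ((l : ℂ) / p + a') + ((k : ℂ) / p + a) = v.1 + (((k + l : ℤ) : ℂ) / p + (a + a'))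
      push_cast
      ring
    · change (A (k + l) v).2 i + b' (i - k) + b i = (A (k + l) v).2 i + (b' (i - k) + b i)
      ring
  one_mem' := ⟨0, 0, 0, isGauss_zero, fun _ => isGauss_zero, fun v => by
    rw [A_zero]
    refine Prod.ext ?_ (funext fun i => ?_)
    · change v.1 = v.1 + (((0 : ℤ) : ℂ) / p + 0)
      simp
    · change v.2 i = v.2 i + 0
      rw [add_zero]⟩
  inv_mem' := by
    rintro γ ⟨k, a, b, ha, hb, h⟩
    refine ⟨-k, -a, fun i => -b (i + k), ha.neg, fun i => (hb _).neg, fun v => ?_⟩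
    change γ.symm v = _
    rw [AffineEquiv.symm_apply_eq, h, map_add, ← A_add, add_neg_cancel, A_zero]
    refine Prod.ext ?_ (funext fun i => ?_)
    · change v.1 = v.1 + (((-k : ℤ) : ℂ) / p + -a) + ((k : ℂ) / p + a)
      push_cast
      ring
    · change v.2 i = v.2 i + -b (i - k + k) + b i
      rw [sub_add_cancel]
      ring

theorem lin {γ : V p ≃ᵃ[ℂ] V p} {k : ℤ} {a : ℂ} {b : ZMod p → ℂ}
    (h : ∀ v, γ v = A k v + ((k : ℂ) / p + a, b)) (w : V p) : γ.linear w = A k w := by
  have h1 := TQ.act γ w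
  rw [h w, h 0, map_zero, zero_add] at h1
  exact (add_right_cancel h1).symm

/-- The group acts freely. -/
theorem free {γ : V p ≃ᵃ[ℂ] V p} (hγ : γ ∈ Gam p) {v : V p} (hv : γ v = v) : γ = 1 := by
  obtain ⟨k, a, b, ha, hb, h⟩ := hγ
  have hp0 : (p : ℂ) ≠ 0 := by exact_mod_cast (Fact.out : p.Prime).ne_zero
  have h1 := h v
  rw [hv] at h1
  have h2 : v.1 = v.1 + ((k : ℂ) / p + a) := congrArg Prod.fst h1
  have h3 : (k : ℂ) / p + a = 0 := by linear_combination -h2
  obtain ⟨m, n, rfl⟩ := ha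
  have h4 : (k : ℂ) + p * (m + n * Complex.I) = 0 := by
    field_simp at h3
    linear_combination h3
  have h5 := congrArg Complex.re h4
  simp only [Complex.add_re, Complex.intCast_re, Complex.mul_re, Complex.natCast_re,
    Complex.I_re, mul_zero, Complex.intCast_im, Complex.I_im, mul_one, sub_self, add_zero,
    Complex.natCast_im, zero_mul, sub_zero, Complex.zero_re] at h5
  have h6 : k = -(p * m) := by
    have : (k : ℝ) = -(p * m) := by linarith
    exact_mod_cast this
  have h7 : ((k : ℤ) : ZMod p) = 0 := by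
    rw [h6]
    push_cast
    simp
  have hA : ∀ w : V p, A k w = w := by
    intro w
    refine Prod.ext rfl (funext fun i => ?_)
    change w.2 (i - (k : ZMod p)) = w.2 i
    rw [h7, sub_zero]
  apply AffineEquiv.ext
  intro w
  have h8 := h w
  rw [hA] at h1 h8
  have h9 : ((k : ℂ) / p + (m + n * Complex.I), b) = (0 : V p) := by
    have := h1
    rw [eq_comm, add_eq_left] at this
    exact this
  rw [h9, add_zero] at h8
  exact h8

theorem latt_mem {a : ℂ} {b : ZMod p → ℂ} (ha : IsGauss a) (hb : ∀ i, IsGauss (b i)) :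
    ((a, b) : V p) ∈ latt (Gam p) := by
  refine ⟨0, a, b, ha, hb, fun v => ?_⟩
  rw [A_zero]
  refine Prod.ext ?_ (funext fun i => ?_)
  · change a + v.1 = v.1 + (((0 : ℤ) : ℂ) / p + a)
    push_cast
    ring
  · change b i + v.2 i = v.2 i + b i
    ring

theorem tq : IsTorusQuotient (Gam p) where
  discrete := by
    have hp0 : (0 : ℝ) < p := by exact_mod_cast (Fact.out : p.Prime).pos
    refine discreteTopology_iff_isOpen_singleton_zero.mpr
      ⟨Metric.ball 0 (1 / p), Metric.isOpen_ball, ?_⟩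
    ext ⟨v, hv⟩
    simp only [Set.mem_preimage, mem_ball_zero_iff, Set.mem_singleton_iff]
    constructor
    · intro h
      obtain ⟨k, a, b, ha, hb, he⟩ := hv
      have h0 : v = ((k : ℂ) / p + a, b) := by
        have h1 : v + 0 = A k 0 + ((k : ℂ) / p + a, b) := he 0
        rwa [add_zero, LinearMap.map_zero, zero_add] at h1
      have hn1 : ‖v.1‖ < 1 / p := (norm_fst_le v).trans_lt h
      have hn2 : ‖v.2‖ < 1 / p := (norm_snd_le v).trans_lt h
      have hp1 : (1 : ℝ) / p ≤ 1 := by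
        rw [div_le_one hp0]
        exact_mod_cast (Fact.out : p.Prime).one_lt.le
      apply Subtype.ext
      change v = 0
      rw [h0] at hn1 hn2 ⊢
      have hpc : (p : ℂ) ≠ 0 := by exact_mod_cast (Fact.out : p.Prime).ne_zero
      have h1 : (p : ℂ) * ((k : ℂ) / p + a) = 0 := by
        have e : (p : ℂ) * ((k : ℂ) / p + a) = k + p * a := by
          field_simp
        apply gauss_small
        · rw [e]
          obtain ⟨m, n, rfl⟩ := ha
          exact ⟨k + p * m, p * n, by push_cast; ring⟩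
        · rw [norm_mul, Complex.norm_natCast]
          have := mul_lt_mul_of_pos_left hn1 hp0
          rwa [mul_one_div_cancel hp0.ne'] at this
      refine Prod.ext ((mul_eq_zero.1 h1).resolve_left hpc) (funext fun i => ?_)
      exact gauss_small (hb i) ((norm_le_pi_norm b i).trans_lt (hn2.trans_le hp1))
    · intro h
      have h' : v = 0 := congrArg Subtype.val h
      rw [h', norm_zero]
      positivity
  span_top := by
    rw [Submodule.eq_top_iff']
    intro v
    have hI : IsGauss Complex.I := ⟨0, 1, by simp⟩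
    have m1 : ∀ z, IsGauss z → ((z, 0) : V p) ∈ latt (Gam p) := fun z hz =>
      latt_mem hz fun _ => isGauss_zero
    have m2 : ∀ z, IsGauss z → ∀ i, ((0, Pi.single i z) : V p) ∈ latt (Gam p) := by
      intro z hz i
      refine latt_mem isGauss_zero fun j => ?_
      by_cases h : j = i
      · subst h
        simpa using hz
      · simpa [h] using isGauss_zero
    have h1 : v = (v.1.re • ((1, 0) : V p) + v.1.im • ((Complex.I, 0) : V p))
        + ∑ i, ((v.2 i).re • ((0, Pi.single i 1) : V p)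
          + (v.2 i).im • ((0, Pi.single i Complex.I) : V p)) := by
      refine Prod.ext ?_ ?_
      · simp only [Prod.fst_add, Prod.fst_sum, Prod.smul_fst, smul_zero, add_zero,
          Finset.sum_const_zero, Complex.real_smul, mul_one, Complex.re_add_im]
      · simp only [Prod.snd_add, Prod.snd_sum, Prod.smul_snd, smul_zero, add_zero, zero_add]
        funext j
        rw [Finset.sum_apply]
        simp only [Pi.add_apply, Pi.smul_apply, Pi.single_apply]
        rw [Finset.sum_eq_single j]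
        · simp
        · intro i _ hij
          simp [hij.symm]
        · simp
    rw [h1]
    refine Submodule.add_mem _ (Submodule.add_mem _ ?_ ?_) (Submodule.sum_mem _ fun i _ =>
      Submodule.add_mem _ ?_ ?_)
    · exact Submodule.smul_mem _ _ (Submodule.subset_span (m1 _ isGauss_one))
    · exact Submodule.smul_mem _ _ (Submodule.subset_span (m1 _ hI))
    · exact Submodule.smul_mem _ _ (Submodule.subset_span (m2 _ isGauss_one i))
    · exact Submodule.smul_mem _ _ (Submodule.subset_span (m2 _ hI i))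
  finite_linear := by
    have hfin : (Set.range fun j : ZMod p => (A (j.val : ℤ) : V p →ₗ[ℂ] V p)).Finite :=
      Set.finite_range _
    have h : {B : V p ≃ₗ[ℂ] V p | ∃ γ ∈ Gam p, γ.linear = B} ⊆
        (fun B : V p ≃ₗ[ℂ] V p => (B : V p →ₗ[ℂ] V p)) ⁻¹'
          (Set.range fun j : ZMod p => (A (j.val : ℤ) : V p →ₗ[ℂ] V p)) := by
      rintro _ ⟨γ, ⟨k, a, b, ha, hb, he⟩, rfl⟩
      refine ⟨(k : ZMod p), ?_⟩
      apply LinearMap.ext
      intro w
      change A _ w = γ.linear w
      rw [lin he]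
      refine Prod.ext rfl (funext fun i => ?_)
      change w.2 (i - (((k : ZMod p).val : ℤ) : ZMod p)) = w.2 (i - (k : ZMod p))
      congr 2
      simp
    exact (hfin.preimage (Set.injOn_of_injective LinearEquiv.toLinearMap_injective)).subset h

/-- The ramification divisor is empty. -/
theorem ram : IsRamification (Gam p) (fun _ => 1) where
  holo := differentiable_const _
  zero_iff := by
    intro v
    refine ⟨fun h => absurd h one_ne_zero, ?_⟩
    rintro ⟨γ, hγ, hne, ℓ, hℓ, h⟩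
    exact absurd (free hγ (h v rfl)) hne
  order := by
    intro ℓ c hℓ
    obtain ⟨x, hx⟩ : ∃ x, ℓ x ≠ 0 := by
      by_contra hcon
      push Not at hcon
      exact hℓ (LinearMap.ext hcon)
    have hy : ℓ ((c / ℓ x) • x) = c := by
      rw [map_smul, smul_eq_mul, div_mul_cancel₀ _ hx]
    have h1 : ramIndex (Gam p) ℓ c = 1 := by
      rw [ramIndex, Nat.card_eq_one_iff_unique]
      refine ⟨⟨?_⟩, ⟨⟨1, (Gam p).one_mem, fun _ _ => rfl⟩⟩⟩
      rintro ⟨γ, hγ, h⟩ ⟨δ, hδ, h'⟩
      apply Subtype.ext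
      change γ = δ
      rw [free hγ (h _ hy), free hδ (h' _ hy)]
    refine ⟨fun _ => 1, differentiable_const _, fun w => ?_, (c / ℓ x) • x, hy, one_ne_zero⟩
    rw [h1]
    simp

/-- The determinants of the linear parts are `1` if `p` is odd. -/
theorem det_A (h2 : p ≠ 2) (k : ℤ) : LinearMap.det (A k : V p →ₗ[ℂ] V p) = 1 := by
  have hmul : ∀ k l : ℤ, LinearMap.det (A (k + l) : V p →ₗ[ℂ] V p)
      = LinearMap.det (A k : V p →ₗ[ℂ] V p) * LinearMap.det (A l : V p →ₗ[ℂ] V p) := by
    intro k l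
    rw [← LinearMap.det_comp]
    congr 1
    exact LinearMap.ext fun v => A_add k l v
  have hzero : LinearMap.det (A 0 : V p →ₗ[ℂ] V p) = 1 := by
    have : (A 0 : V p →ₗ[ℂ] V p) = LinearMap.id := LinearMap.ext fun v => A_zero v
    rw [this, LinearMap.det_id]
  -- the reflection
  let R : V p →ₗ[ℂ] V p :=
    { toFun := fun v => (v.1, fun i => v.2 (-i))
      map_add' := fun _ _ => rfl
      map_smul' := fun _ _ => rfl }
  have hRR : R ∘ₗ R = LinearMap.id := by
    apply LinearMap.ext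
    intro v
    refine Prod.ext rfl (funext fun i => ?_)
    change v.2 (- -i) = v.2 i
    rw [neg_neg]
  have hR : R ∘ₗ A k = A (-k) ∘ₗ R := by
    apply LinearMap.ext
    intro v
    refine Prod.ext rfl (funext fun i => ?_)
    change v.2 (-i - (k : ZMod p)) = v.2 (-(i - ((-k : ℤ) : ZMod p)))
    congr 1
    push_cast
    ring
  have hR0 : LinearMap.det R ≠ 0 := by
    have h1 := congrArg LinearMap.det hRR
    rw [LinearMap.det_comp, LinearMap.det_id] at h1
    intro h
    rw [h, zero_mul] at h1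
    exact zero_ne_one h1
  have h1 : LinearMap.det (A k : V p →ₗ[ℂ] V p) = LinearMap.det (A (-k) : V p →ₗ[ℂ] V p) := by
    have h1 := congrArg LinearMap.det hR
    rw [LinearMap.det_comp, LinearMap.det_comp, mul_comm] at h1
    exact mul_right_cancel₀ hR0 h1
  have hsq : LinearMap.det (A k : V p →ₗ[ℂ] V p) ^ 2 = 1 := by
    have h3 := hmul k (-k)
    rw [add_neg_cancel, hzero, ← h1] at h3
    rw [pow_two, ← h3]
  have hpow : ∀ n : ℕ, LinearMap.det (A (n * k) : V p →ₗ[ℂ] V p)
      = LinearMap.det (A k : V p →ₗ[ℂ] V p) ^ n := by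
    intro n
    induction n with
    | zero => simp only [Nat.cast_zero, zero_mul, pow_zero]; exact hzero
    | succ n ih =>
      have : ((n + 1 : ℕ) : ℤ) * k = n * k + k := by push_cast; ring
      rw [this, hmul, ih, pow_succ]
  have hp : LinearMap.det (A k : V p →ₗ[ℂ] V p) ^ p = 1 := by
    rw [← hpow]
    have : (A (p * k) : V p →ₗ[ℂ] V p) = A 0 := by
      apply LinearMap.ext
      intro v
      refine Prod.ext rfl (funext fun i => ?_)
      change v.2 (i - ((p * k : ℤ) : ZMod p)) = v.2 (i - ((0 : ℤ) : ZMod p))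
      congr 2
      push_cast
      simp
    rw [this, hzero]
  obtain ⟨j, hj⟩ := (Fact.out : p.Prime).odd_of_ne_two h2
  have hp' : LinearMap.det (A k : V p →ₗ[ℂ] V p) ^ (2 * j + 1) = 1 := by
    rw [← hj]
    exact hp
  rw [pow_succ, pow_mul, hsq, one_pow, one_mul] at hp'
  exact hp'

/-- The character. -/
noncomputable def ch (γ : V p ≃ᵃ[ℂ] V p) : ℂ :=
  Complex.exp (2 * Real.pi * Complex.I * ((γ 0).1.re : ℝ))

theorem ch_eq {γ : V p ≃ᵃ[ℂ] V p} {k : ℤ} {a : ℂ} {b : ZMod p → ℂ} (ha : IsGauss a)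
    (h : ∀ v, γ v = A k v + ((k : ℂ) / p + a, b)) : ch γ = ZMod.stdAddChar (k : ZMod p) := by
  rw [ZMod.stdAddChar_coe, ch, h 0, map_zero, zero_add]
  obtain ⟨m, n, rfl⟩ := ha
  change Complex.exp (2 * Real.pi * Complex.I * (((k : ℂ) / p + (m + n * Complex.I)).re : ℝ)) = _
  have h1 : ((k : ℂ) / p + (m + n * Complex.I)).re = (k : ℝ) / p + m := by
    have : (k : ℂ) / p = (((k : ℝ) / p : ℝ) : ℂ) := by push_cast; rfl
    rw [this]
    simp
  rw [h1, Complex.exp_eq_exp_iff_exists_int]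
  refine ⟨m, ?_⟩
  push_cast
  ring

/-- The factor of automorphy. -/
noncomputable def fac (γ : V p ≃ᵃ[ℂ] V p) (v : V p) : ℂ :=
  ch γ * ∏ i, ep ((γ 0).2 i) ((γ v).2 i - (γ 0).2 i)

theorem fac_eq {γ : V p ≃ᵃ[ℂ] V p} {k : ℤ} {a : ℂ} {b : ZMod p → ℂ} (ha : IsGauss a)
    (h : ∀ v, γ v = A k v + ((k : ℂ) / p + a, b)) (v : V p) :
    fac γ v = ZMod.stdAddChar (k : ZMod p) * ∏ i, ep (b i) (v.2 (i - k)) := by
  rw [fac, ch_eq ha h]
  congr 1
  refine Finset.prod_congr rfl fun i _ => ?_
  have h1 : (γ 0).2 i = b i := by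
    rw [h 0, map_zero, zero_add]
  have h2 : (γ v).2 i = v.2 (i - k) + b i := by
    rw [h v]
    rfl
  rw [h1, h2, add_sub_cancel_right]

theorem fac_ne (γ : V p ≃ᵃ[ℂ] V p) (v : V p) : fac γ v ≠ 0 :=
  mul_ne_zero (Complex.exp_ne_zero _) (Finset.prod_ne_zero_iff.2 fun _ _ => Complex.exp_ne_zero _)

/-- The eigenfunction. -/
noncomputable def eig (g h : ℂ → ℂ) (v : V p) : ℂ :=
  ∑ j : ZMod p, ZMod.stdAddChar j * ∏ i, if i = j then g (v.2 i) else h (v.2 i)

theorem eig_eq {g h : ℂ → ℂ} (hg : ∀ b z, IsGauss b → g (z + b) = ep b z * g z)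
    (hh : ∀ b z, IsGauss b → h (z + b) = ep b z * h z) {γ : V p ≃ᵃ[ℂ] V p} (hγ : γ ∈ Gam p)
    (v : V p) : eig g h (γ v) = fac γ v * eig g h v := by
  obtain ⟨k, a, b, ha, hb, he⟩ := hγ
  rw [fac_eq ha he, eig, eig, ← Equiv.sum_comp (Equiv.addRight (k : ZMod p)), Finset.mul_sum]
  refine Finset.sum_congr rfl fun j _ => ?_
  have h2 : ∀ i, (γ v).2 i = v.2 (i - k) + b i := by
    intro i
    rw [he v]
    rfl
  have h1 : ∏ i, (if i = (Equiv.addRight (k : ZMod p)) j then g ((γ v).2 i) else h ((γ v).2 i))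
      = (∏ i, ep (b i) (v.2 (i - k))) * ∏ i, (if i = j then g (v.2 i) else h (v.2 i)) := by
    have h3 : ∏ i, (if i = j then g (v.2 i) else h (v.2 i))
        = ∏ i, (if i - k = j then g (v.2 (i - k)) else h (v.2 (i - k))) :=
      (Equiv.prod_comp (Equiv.subRight (k : ZMod p))
        fun i => if i = j then g (v.2 i) else h (v.2 i)).symm
    rw [h3, ← Finset.prod_mul_distrib]
    refine Finset.prod_congr rfl fun i _ => ?_
    rw [h2 i, Equiv.coe_addRight]
    by_cases hi : i = j + k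
    · rw [if_pos hi, if_pos (by rw [hi]; ring), hg _ _ (hb i)]
    · rw [if_neg hi, if_neg (fun h' => hi (by rw [← h']; ring)), hh _ _ (hb i)]
  rw [h1, Equiv.coe_addRight, AddChar.map_add_eq_mul]
  ring

theorem eig_ne {g h : ℂ → ℂ} {z1 z2 : ℂ} (h1 : g z1 = 0) (h2 : h z1 ≠ 0) (h3 : g z2 ≠ 0) :
    ∃ v : V p, eig g h v ≠ 0 := by
  refine ⟨(0, fun i => if i = 0 then z2 else z1), ?_⟩
  rw [eig, Finset.sum_eq_single 0]
  · refine mul_ne_zero (by simp) (Finset.prod_ne_zero_iff.2 fun i _ => ?_)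
    by_cases hi : i = 0
    · simp [hi, h3]
    · simp [hi, h2]
  · intro j _ hj
    rw [Finset.prod_eq_zero (Finset.mem_univ j), mul_zero]
    simp [hj, h1]
  · simp

theorem eig_holo {g h : ℂ → ℂ} (hg : Differentiable ℂ g) (hh : Differentiable ℂ h) :
    Differentiable ℂ (eig g h : V p → ℂ) := by
  have hc : ∀ i, Differentiable ℂ fun v : V p => v.2 i := fun i =>
    ((ContinuousLinearMap.proj i).comp (ContinuousLinearMap.snd ℂ ℂ (ZMod p → ℂ))).differentiable
  have h1 : (eig g h : V p → ℂ) = fun v => ∑ j : ZMod p,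
      ZMod.stdAddChar j * ∏ i, if i = j then g (v.2 i) else h (v.2 i) := rfl
  rw [h1]
  refine Differentiable.fun_sum fun j _ => ?_
  refine (prod_holo Finset.univ (fun (i : ZMod p) (v : V p) =>
    if i = j then g (v.2 i) else h (v.2 i)) fun i _ => ?_).const_mul _
  by_cases hi : i = j
  · simp only [hi, if_true]
    exact hg.comp (hc j)
  · simp only [hi, if_false]
    exact hh.comp (hc i)

theorem fac_mul {γ δ : V p ≃ᵃ[ℂ] V p} (hγ : γ ∈ Gam p) (hδ : δ ∈ Gam p) (v : V p) :
    fac (γ * δ) v = fac γ (δ v) * fac δ v := by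
  obtain ⟨k, a, b, ha, hb, h⟩ := hγ
  obtain ⟨l, a', b', ha', hb', h'⟩ := hδ
  have h1 : ∀ v, (γ * δ) v = A (k + l) v
      + (((k + l : ℤ) : ℂ) / p + (a + a'), fun i => b' (i - k) + b i) := by
    intro v
    change γ (δ v) = _
    rw [h, h', map_add, ← A_add]
    refine Prod.ext ?_ (funext fun i => ?_)
    · change v.1 + ((l : ℂ) / p + a') + ((k : ℂ) / p + a) = v.1 + (((k + l : ℤ) : ℂ) / p + (a + a'))
      push_cast
      ring
    · change (A (k + l) v).2 i + b' (i - k) + b i = (A (k + l) v).2 i + (b' (i - k) + b i)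
      ring
  rw [fac_eq (ha.add ha') h1, fac_eq ha h, fac_eq ha' h', Int.cast_add, AddChar.map_add_eq_mul]
  have h2 : ∏ i, ep (b' i) (v.2 (i - (l : ZMod p)))
      = ∏ i, ep (b' (i - k)) (v.2 (i - k - (l : ZMod p))) :=
    (Equiv.prod_comp (Equiv.subRight (k : ZMod p))
      fun i => ep (b' i) (v.2 (i - (l : ZMod p)))).symm
  rw [h2, mul_mul_mul_comm, ← Finset.prod_mul_distrib]
  congr 1
  refine Finset.prod_congr rfl fun i _ => ?_
  have h3 : (δ v).2 (i - k) = v.2 (i - k - (l : ZMod p)) + b' (i - k) := by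
    rw [h' v]
    rfl
  have h4 : i - ((k : ZMod p) + (l : ZMod p)) = i - k - (l : ZMod p) := by ring
  rw [h3, h4, ep_add (hb i) (hb' _)]

/-- The line bundle. -/
noncomputable def LL (p : ℕ) [Fact p.Prime] : LineBundle (Gam p) where
  e := fun γ v => fac γ.1 v
  holo := fun γ => by
    have hc : ∀ i, Differentiable ℂ fun v : V p => ((γ : V p ≃ᵃ[ℂ] V p) v).2 i := fun i =>
      (((ContinuousLinearMap.proj i).comp
        (ContinuousLinearMap.snd ℂ ℂ (ZMod p → ℂ))).differentiable).comp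
          (affine_differentiable γ.1)
    refine (prod_holo Finset.univ (fun (i : ZMod p) (v : V p) =>
      ep ((γ.1 0).2 i) ((γ.1 v).2 i - (γ.1 0).2 i)) fun i _ => ?_).const_mul _
    simp only [ep, H1]
    exact ((((((hc i).sub_const _).mul_const _).const_mul _).const_mul _).add_const _).cexp
  ne_zero := fun γ v => fac_ne _ _
  mul := fun γ δ v => fac_mul γ.2 δ.2 v
  stab := fun γ v h => by
    have h1 := free γ.2 h
    rw [h1, fac_eq (k := 0) (a := 0) (b := 0) isGauss_zero (fun v => by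
      rw [A_zero]
      refine Prod.ext ?_ (funext fun i => ?_)
      · change v.1 = v.1 + (((0 : ℤ) : ℂ) / p + 0)
        simp
      · change v.2 i = v.2 i + 0
        rw [add_zero])]
    simp [ep, H1]

/-- The Chern form. -/
noncomputable def HH (v w : V p) : ℂ := ∑ i, 2 * H1 (v.2 i) (w.2 i)

theorem HH_herm : IsHermitian (HH : V p → V p → ℂ) := by
  refine ⟨fun u v w => ?_, fun a v w => ?_, fun v w => ?_⟩
  · rw [HH, HH, HH, ← Finset.sum_add_distrib]
    refine Finset.sum_congr rfl fun i _ => ?_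
    rw [← mul_add, ← H1_herm.add_left]
    rfl
  · rw [HH, HH, Finset.mul_sum]
    refine Finset.sum_congr rfl fun i _ => ?_
    have : H1 ((a • v).2 i) (w.2 i) = a * H1 (v.2 i) (w.2 i) := H1_herm.smul_left a _ _
    rw [this]
    ring
  · rw [HH, HH, map_sum]
    refine Finset.sum_congr rfl fun i _ => ?_
    rw [map_mul, map_ofNat, ← H1_herm.symm]

theorem HH_re (v : V p) : (HH v v).re = ∑ i, 2 * (H1 (v.2 i) (v.2 i)).re := by
  rw [HH, Complex.re_sum]
  refine Finset.sum_congr rfl fun i _ => ?_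
  have : (2 : ℂ) = ((2 : ℝ) : ℂ) := by push_cast; rfl
  rw [this, Complex.re_ofReal_mul]

theorem HH_nef : IsNefForm (HH : V p → V p → ℂ) := by
  intro v
  rw [HH_re]
  refine Finset.sum_nonneg fun i _ => ?_
  rw [H1_re]
  have := Complex.normSq_nonneg (v.2 i)
  positivity

theorem chern : IsChernForm (LL p) HH := by
  refine ⟨HH_herm, fun _ => 0, differentiable_const _, ?_⟩
  rintro ⟨γ, k, a, b, ha, hb, h⟩ v
  change ‖fac γ v‖ ^ 2 = Real.exp (Real.pi * (HH (γ v) (γ v)).re
      + 2 * (0 : ℂ).re - (Real.pi * (HH v v).re + 2 * (0 : ℂ).re))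
  have h1 : ‖(ZMod.stdAddChar (k : ZMod p) : ℂ)‖ = 1 := by
    rw [ZMod.stdAddChar_apply]
    exact Circle.norm_coe _
  have h2 : ∀ i, ‖ep (b i) (v.2 (i - k))‖ ^ 2 = Real.exp (Real.pi *
      (2 * (H1 ((γ v).2 i) ((γ v).2 i)).re - 2 * (H1 (v.2 (i - k)) (v.2 (i - k))).re)) := by
    intro i
    have h3 : (γ v).2 i = v.2 (i - k) + b i := by
      rw [h v]
      rfl
    rw [h3, TQ.h_diag_add H1_herm, ep, Complex.norm_exp, ← Real.exp_nat_mul]
    congr 1
    have h4 : (2 * Real.pi * H1 (v.2 (i - k)) (b i) + Real.pi * H1 (b i) (b i) : ℂ).re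
        = 2 * Real.pi * (H1 (v.2 (i - k)) (b i)).re + Real.pi * (H1 (b i) (b i)).re := by
      have : (2 * Real.pi : ℂ) = ((2 * Real.pi : ℝ) : ℂ) := by push_cast; rfl
      rw [Complex.add_re, this, Complex.re_ofReal_mul, Complex.re_ofReal_mul]
    rw [h4]
    push_cast
    ring
  have h5 : ∑ i, 2 * (H1 (v.2 i) (v.2 i)).re
      = ∑ i, 2 * (H1 (v.2 (i - k)) (v.2 (i - k))).re :=
    (Equiv.sum_comp (Equiv.subRight (k : ZMod p)) fun i => 2 * (H1 (v.2 i) (v.2 i)).re).symm
  rw [fac_eq ha h, norm_mul, h1, one_mul, norm_prod, ← Finset.prod_pow,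
    Finset.prod_congr rfl fun i _ => h2 i, ← Real.exp_sum, HH_re, HH_re, h5]
  congr 1
  rw [← Finset.mul_sum, Finset.sum_sub_distrib]
  simp only [Complex.zero_re]
  ring

/-- The exponents. -/
theorem dvd_of_gg {k : ℕ} (hk : GG ((LL p).pow k)) : p ∣ k := by
  obtain ⟨s, ⟨hs1, hs2⟩, hs0⟩ := hk 0
  let f : ℂ → ℂ := fun x => s (x, 0)
  have hf : Differentiable ℂ f := hs1.comp (differentiable_id.prodMk (differentiable_const _))
  -- the action of the elements `(j, a, 0)`
  have key : ∀ (j : ℤ) (a : ℂ), IsGauss a → ∀ x, f (x + ((j : ℂ) / p + a))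
      = (ZMod.stdAddChar (j : ZMod p) : ℂ) ^ k * f x := by
    intro j a ha x
    let γ : V p ≃ᵃ[ℂ] V p :=
      (LinearEquiv.ofLinearMap (A j : V p →ₗ[ℂ] V p) (A (-j))
        (LinearMap.ext fun v => by
          change A j (A (-j) v) = v
          rw [← A_add, add_neg_cancel, A_zero])
        (LinearMap.ext fun v => by
          change A (-j) (A j v) = v
          rw [← A_add, neg_add_cancel, A_zero])).toAffineEquiv.trans
        (AffineEquiv.constVAdd ℂ (V p) ((j : ℂ) / p + a, 0))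
    have h : ∀ v, γ v = A j v + ((j : ℂ) / p + a, 0) := fun v => add_comm _ _
    have hγ : γ ∈ Gam p := ⟨j, a, 0, ha, fun _ => isGauss_zero, h⟩
    have h1 := hs2 ⟨γ, hγ⟩ (x, 0)
    have h2 : γ (x, 0) = (x + ((j : ℂ) / p + a), 0) := by
      rw [h]
      refine Prod.ext rfl (funext fun i => ?_)
      change (0 : ℂ) + 0 = 0
      rw [add_zero]
    change s (γ (x, 0)) = fac γ (x, 0) ^ k * s (x, 0) at h1
    rw [h2, fac_eq ha h] at h1
    have h3 : ∏ i : ZMod p, ep ((0 : ZMod p → ℂ) i) (((x, 0) : V p).2 (i - j)) = 1 := by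
      refine Finset.prod_eq_one fun i _ => ?_
      simp [ep, H1]
    rw [h3, mul_one] at h1
    exact h1
  have hper : ∀ b ∈ S, ∀ z, f (b + z) = f z := by
    intro b hb z
    have h1 := key 0 b hb z
    rw [Int.cast_zero, Int.cast_zero, zero_div, zero_add, AddChar.map_zero_eq_one, one_pow,
      one_mul, add_comm] at h1
    exact h1
  have hspan : Submodule.span ℝ (S : Set ℂ) = ⊤ := by
    rw [← latt_G1]
    exact tq_G1.span_top
  have hc := TQ.const_of_periodic S hspan f hf hper
  have h1 := key 1 0 isGauss_zero 0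
  rw [hc _ 0] at h1
  have hf0 : f 0 ≠ 0 := hs0
  have h2 : (ZMod.stdAddChar ((1 : ℤ) : ZMod p) : ℂ) ^ k = 1 :=
    (mul_right_cancel₀ hf0 ((one_mul _).trans h1)).symm
  rw [Int.cast_one, ← AddChar.map_nsmul_eq_pow, ← AddChar.map_zero_eq_one
    (ψ := (ZMod.stdAddChar : AddChar (ZMod p) ℂ))] at h2
  have h3 := ZMod.injective_stdAddChar h2
  rw [nsmul_eq_mul, mul_one] at h3
  exact (ZMod.natCast_eq_zero_iff k p).1 h3

end Main

/-- Klt pairs with large exponents. -/
theorem exists_pair (p : ℕ) (hp : p.Prime) (h2 : p ≠ 2) :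
    ∃ (V : Type) (_ : NormedAddCommGroup V) (_ : NormedSpace ℂ V) (_ : FiniteDimensional ℂ V)
      (Γ : Subgroup (V ≃ᵃ[ℂ] V)) (β : V → ℂ) (L : LineBundle Γ) (H : V → V → ℂ),
      Module.finrank ℂ V = p + 1 ∧ IsTorusQuotient Γ ∧ (∀ γ ∈ Γ, γ ≠ 1 → ∀ v, γ v ≠ v) ∧
      (∀ γ ∈ Γ, LinearMap.det (γ.linear : V →ₗ[ℂ] V) = 1) ∧ IsRamification Γ (fun _ => 1) ∧
      Differentiable ℂ β ∧ (∃ v, β v ≠ 0) ∧
      (∀ m : ℕ, IsLogPluricanonical L m (fun _ => 1) β) ∧ IsChernForm L H ∧ IsNefForm H ∧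
      ∀ k : ℕ, GG (L.pow k) → p ∣ k := by
  have : Fact p.Prime := ⟨hp⟩
  obtain ⟨g, h, z1, z2, hg, hh, hge, hhe, h3, h4, h5⟩ := exists_gh
  have hdet : ∀ γ ∈ Gam p, LinearMap.det (γ.linear : V p →ₗ[ℂ] V p) = 1 := by
    rintro γ ⟨k, a, b, ha, hb, he⟩
    have : (γ.linear : V p →ₗ[ℂ] V p) = A k := LinearMap.ext fun w => lin he w
    rw [this, det_A h2]
  refine ⟨V p, inferInstance, inferInstance, inferInstance, Gam p, eig g h, LL p, HH, ?_, tq,
    fun γ hγ hne v hv => hne (free hγ hv), hdet, ram, eig_holo hg hh, eig_ne h3 h4 h5, ?_, chern,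
    HH_nef, fun k hk => dvd_of_gg hk⟩
  · rw [Module.finrank_prod, Module.finrank_self, Module.finrank_fintype_fun_eq_card, ZMod.card]
    ring
  · intro m γ v
    rw [hdet _ γ.2, one_pow, mul_one, mul_one, mul_one]
    exact eig_eq hge hhe γ.2 v

end Q47.EB.Ex3
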